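import Pool.Agent.MP_d97ab6_al.H76.Core

/-! The valuation patterns and their combinatorics. -/

namespace Pool.Agent.MP_d97ab6_al.H76

def pi3 : Fin 4 → Fin 3 → Fin 3 → ℕ :=
  ![![![1, 1, 2], ![1, 1, 2], ![2, 2, 3]], ![![2, 2, 3], ![2, 2, 3], ![1, 1, 2]],
    ![![2, 2, 1], ![3, 3, 2], ![3, 3, 2]], ![![3, 3, 2], ![2, 2, 1], ![3, 3, 2]]]

def pi6 : Fin 3 → Fin 3 → Fin 3 → ℕ :=
  ![![![3, 1, 1], ![4, 2, 2], ![4, 2, 2]], ![![2, 2, 2], ![2, 2, 2], ![3, 3, 3]],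
    ![![2, 1, 2], ![3, 2, 3], ![4, 3, 4]]]

theorem robust3 : ∀ k, Robust 0 (pi3 k) := by decide

theorem robust6 : ∀ k, Robust 1 (pi6 k) := by decide

theorem perm_cases (τ : Fin 3 → Fin 3) (h : Function.Injective τ) :
    τ = ![0, 1, 2] ∨ τ = ![0, 2, 1] ∨ τ = ![1, 0, 2] ∨ τ = ![1, 2, 0] ∨ τ = ![2, 0, 1] ∨
      τ = ![2, 1, 0] := by
  revert τ
  decide

theorem good9 {π : Fin 3 → Fin 3 → ℕ} {τ : Fin 3 → Fin 3} {α : Fin 3 → ℤ} (h : Good π τ α) :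
    ∃ n : ℤ, (2 * n ≤ π (τ 0) (τ 0) ∧ 2 * n ≤ α 0 - α 1 + π (τ 0) (τ 1) ∧
      2 * n ≤ α 0 - α 2 + π (τ 0) (τ 2) ∧ 2 * n + 1 ≤ α 1 - α 0 + π (τ 1) (τ 0) ∧
      2 * n ≤ π (τ 1) (τ 1) ∧ 2 * n ≤ α 1 - α 2 + π (τ 1) (τ 2) ∧
      2 * n + 1 ≤ α 2 - α 0 + π (τ 2) (τ 0) ∧ 2 * n ≤ α 2 - α 1 + π (τ 2) (τ 1) ∧
      2 * n ≤ π (τ 2) (τ 2)) ∧
      (2 * n = π (τ 0) (τ 0) ∨ 2 * n = α 0 - α 1 + π (τ 0) (τ 1) ∨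
      2 * n = α 0 - α 2 + π (τ 0) (τ 2) ∨ 2 * n + 1 = α 1 - α 0 + π (τ 1) (τ 0) ∨
      2 * n = π (τ 1) (τ 1) ∨ 2 * n = α 1 - α 2 + π (τ 1) (τ 2) ∨
      2 * n + 1 = α 2 - α 0 + π (τ 2) (τ 0) ∨ 2 * n = α 2 - α 1 + π (τ 2) (τ 1) ∨
      2 * n = π (τ 2) (τ 2)) := by
  obtain ⟨n, h1, a, b, h2⟩ := h
  have e : eps 1 0 0 = 0 ∧ eps 1 0 1 = 0 ∧ eps 1 0 2 = 0 ∧ eps 1 1 0 = 1 ∧ eps 1 1 1 = 0 ∧
    eps 1 1 2 = 0 ∧ eps 1 2 0 = 1 ∧ eps 1 2 1 = 0 ∧ eps 1 2 2 = 0 := by decide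
  have := h1 0 0
  have := h1 0 1
  have := h1 0 2
  have := h1 1 0
  have := h1 1 1
  have := h1 1 2
  have := h1 2 0
  have := h1 2 1
  have := h1 2 2
  refine ⟨n, by omega, ?_⟩
  have h3 : ∀ t : Fin 3, t = 0 ∨ t = 1 ∨ t = 2 := by decide
  rcases h3 a with rfl | rfl | rfl <;> rcases h3 b with rfl | rfl | rfl <;> omega

theorem comb6 (τ : Fin 3 → Fin 3) (h : Function.Injective τ) (α : Fin 3 → ℤ) :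
    ¬ ∀ k, Good (pi6 k) τ α := by
  intro H
  obtain ⟨n0, a0⟩ := good9 (H 0)
  obtain ⟨n1, a1⟩ := good9 (H 1)
  obtain ⟨n2, a2⟩ := good9 (H 2)
  rcases perm_cases τ h with rfl | rfl | rfl | rfl | rfl | rfl <;>
    simp only [pi6, Matrix.cons_val] at a0 a1 a2 <;> omega

theorem comb3 (τ : Fin 3 → Fin 3) (h : Function.Injective τ) (α : Fin 3 → ℤ) :
    ¬ ∀ k, Good (pi3 k) τ α := by
  intro H
  obtain ⟨n0, a0⟩ := good9 (H 0)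
  obtain ⟨n1, a1⟩ := good9 (H 1)
  obtain ⟨n2, a2⟩ := good9 (H 2)
  obtain ⟨n3, a3⟩ := good9 (H 3)
  rcases perm_cases τ h with rfl | rfl | rfl | rfl | rfl | rfl <;>
    simp only [pi3, Matrix.cons_val] at a0 a1 a2 a3 <;> omega

end Pool.Agent.MP_d97ab6_al.H76
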