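import Pool.Agent.MP_d97ab6_al.H76.Elim

/-! The abstract parity obstruction. -/

namespace Pool.Agent.MP_d97ab6_al.H76

open Matrix

variable {K : Type} [Field K] {V : DV K}

/-- A pattern of valuations that survives multiplication by congruence elements of level two. -/
def Robust (d : ℕ) (π : Fin 3 → Fin 3 → ℕ) : Prop :=
  ∀ i j l, π i j ≤ π l j + 1 + eps d i l ∧ π i j ≤ π i l + 1 + eps d l j

instance (d : ℕ) (π : Fin 3 → Fin 3 → ℕ) : Decidable (Robust d π) := by
  unfold Robust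
  infer_instance

theorem robust_conj {d : ℕ} {π : Fin 3 → Fin 3 → ℕ} {Y k1 k2 : Mx K}
    (hY : ∀ i j, V.ex (Y i j) (π i j)) (h1 : V.In d (k1 - 1) 2) (h2 : V.In d (k2 - 1) 2)
    (hr : Robust d π) (i j : Fin 3) : V.ex ((k1 * Y * k2) i j) (π i j) := by
  have hZ : ∀ i j, V.ex ((k1 * Y) i j) (π i j) := by
    intro i j
    have e : k1 * Y = Y + (k1 - 1) * Y := by rw [sub_mul, Matrix.one_mul]; abel
    rw [e, Matrix.add_apply, Matrix.mul_apply]
    refine (hY i j).add_ge (DV.ge_sum _ _ _ fun l _ => ((h1 i l).mul (hY l j).ge).mono ?_)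
    have := (hr i j l).1
    omega
  have e : k1 * Y * k2 = k1 * Y + k1 * Y * (k2 - 1) := by rw [mul_sub, Matrix.mul_one]; abel
  rw [e, Matrix.add_apply, Matrix.mul_apply (M := k1 * Y)]
  refine (hZ i j).add_ge (DV.ge_sum _ _ _ fun l _ => ((hZ i l).ge.mul (h2 l j)).mono ?_)
  have := (hr i j l).2
  omega

/-- The parity condition for a pattern seen through a monomial matrix. -/
def Good (π : Fin 3 → Fin 3 → ℕ) (τ : Fin 3 → Fin 3) (α : Fin 3 → ℤ) : Prop :=
  ∃ n : ℤ, (∀ a b, 2 * n + eps 1 a b ≤ α a - α b + π (τ a) (τ b)) ∧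
    ∃ a b, α a - α b + π (τ a) (τ b) < 2 * n + 1 + eps 1 a b

theorem good_of_par {π : Fin 3 → Fin 3 → ℕ} {D X Y : Mx K} {τ : Fin 3 → Fin 3}
    (hD : Cleared D Finset.univ τ) (h : X * D = D * Y) (hY : ∀ i j, V.ex (Y i j) (π i j))
    (hX : V.Par X) : Good π τ fun a => V.val (D a (τ a)) := by
  have key : ∀ a b, V.ex (X a b) (V.val (D a (τ a)) - V.val (D b (τ b)) + π (τ a) (τ b)) := by
    intro a b
    obtain ⟨ha, ha2, -⟩ := hD a (Finset.mem_univ _)
    obtain ⟨hb, -, hb2⟩ := hD b (Finset.mem_univ _)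
    have e := congrFun (congrFun h a) (τ b)
    rw [Matrix.mul_apply, Matrix.mul_apply, Finset.sum_eq_single b, Finset.sum_eq_single (τ a)] at e
    · have e2 : X a b = D a (τ a) * Y (τ a) (τ b) * (D b (τ b))⁻¹ := by
        rw [← e]
        field_simp
      rw [e2]
      have := ((DV.ex_self (V := V) ha).mul (hY (τ a) (τ b))).mul (DV.ex_self (V := V) hb).inv
      refine ⟨this.1, ?_⟩
      rw [this.2]
      ring
    · intro l _ hl
      rw [ha2 l hl, zero_mul]
    · simp
    · intro l _ hl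
      rw [hb2 l hl, mul_zero]
    · simp
  obtain ⟨n, ⟨m, hm⟩, h2, h3⟩ := hX
  refine ⟨m, fun a b => ?_, ?_⟩
  · have := (h2 a b).resolve_left (key a b).1
    rw [(key a b).2] at this
    beta_reduce
    omega
  · by_contra h4
    push Not at h4
    refine h3 fun a b => (key a b).ge.mono ?_
    have := h4 a b
    beta_reduce at this
    omega

theorem cleared_inj {D : Mx K} {τ : Fin 3 → Fin 3} (hD : Cleared D Finset.univ τ) :
    Function.Injective τ := by
  intro a b hab
  by_contra h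
  have h1 := (hD a (Finset.mem_univ _)).1
  rw [hab] at h1
  exact h1 ((hD b (Finset.mem_univ _)).2.2 a h)

/-- Elementary matrix. -/
def elM (j l : Fin 3) (x : K) : Mx K := 1 + rowM j (Pi.single l x)

theorem elM_mul {j l : Fin 3} (h : j ≠ l) (x y : K) : elM j l x * elM j l y = elM j l (x + y) := by
  ext a b
  simp only [elM, add_mul, mul_add, Matrix.one_mul, Matrix.mul_one, Matrix.add_apply, mul_rowM]
  simp only [rowM, Matrix.of_apply, Pi.single_apply]
  split_ifs <;> simp_all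

theorem elM_zero (j l : Fin 3) : elM j l (0 : K) = 1 := by
  ext a b
  simp [elM, rowM]

theorem row_eq (j : Fin 3) (x : Fin 3 → K) (h : x j = 0) :
    1 + rowM j x = elM j 0 (x 0) * elM j 1 (x 1) * elM j 2 (x 2) := by
  ext a b
  simp only [elM, add_mul, mul_add, Matrix.one_mul, Matrix.mul_one, Matrix.add_apply, mul_rowM]
  simp only [rowM, Matrix.of_apply, Pi.single_apply]
  fin_cases j <;> fin_cases a <;> fin_cases b <;> simp_all

/-- Matrices congruent to an element of `S` modulo level two. -/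
def congr2 (V : DV K) (d : ℕ) (S : Submonoid (Mx K)) (hS : ∀ γ ∈ S, V.In d γ 0) :
    Submonoid (Mx K) where
  carrier := {k | ∃ γ ∈ S, V.In d (k - γ) 2}
  one_mem' := ⟨1, S.one_mem, by simpa using DV.In_zero 2⟩
  mul_mem' := by
    rintro a b ⟨γ, hγ, ha⟩ ⟨δ, hδ, hb⟩
    refine ⟨γ * δ, S.mul_mem hγ hδ, ?_⟩
    have hb0 : V.In d b 0 := by simpa using (hb.mono (by omega : (0 : ℤ) ≤ 2)).add (hS δ hδ)
    have e : a * b - γ * δ = (a - γ) * b + γ * (b - δ) := by
      rw [sub_mul, mul_sub]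
      abel
    rw [e]
    exact DV.In.add (by simpa using ha.mul hb0) (by simpa using (hS γ hγ).mul hb)

theorem core {d : ℕ} (hd : d ≤ 1) (S : Submonoid (Mx K)) (hS : ∀ γ ∈ S, ∃ γ', V.U d γ γ')
    (hE : ∀ j l, j ≠ l → ∀ e : ℕ, e ≤ 1 → ∃ γ ∈ S, V.In d (elM j l (V.th ^ (eps d j l + e)) - γ) 2)
    {ι : Type} (Y : ι → Mx K) (π : ι → Fin 3 → Fin 3 → ℕ) (hY : ∀ k i j, V.ex (Y k i j) (π k i j))
    (hr : ∀ k, Robust d (π k))
    (hc : ∀ τ : Fin 3 → Fin 3, Function.Injective τ → ∀ α, ¬ ∀ k, Good (π k) τ α)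
    (g g' : Mx K) (hg : g * g' = 1)
    (H : ∀ γ ∈ S, ∀ γ', V.U d γ γ' → ∀ k, V.Par (g * (γ * Y k * γ') * g')) : False := by
  have hS0 : ∀ γ ∈ S, V.In d γ 0 := fun γ hγ => (hS γ hγ).choose_spec.l
  let G := congr2 V d S hS0
  have hnat : ∀ j l, j ≠ l → ∀ x : K, elM j l x ∈ G → ∀ a : ℕ, elM j l (a * x) ∈ G := by
    intro j l hjl x hx a
    induction a with
    | zero => simp [elM_zero]
    | succ a ih =>
      have := G.mul_mem ih hx
      rw [elM_mul hjl] at this
      push_cast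
      rwa [add_mul, one_mul]
  have hel : ∀ j l (x : K), (j = l → x = 0) → V.ge x (0 + eps d j l) → elM j l x ∈ G := by
    intro j l x h0 hx
    by_cases hjl : j = l
    · rw [h0 hjl, elM_zero]
      exact G.one_mem
    obtain ⟨a, b, hab⟩ := DV.res2 (V := V) (eps d j l) (x := x) (by simpa using hx)
    have h1 := hnat j l hjl _ (hE j l hjl 0 (by omega)) a
    have h2 := hnat j l hjl _ (hE j l hjl 1 le_rfl) b
    obtain ⟨γ, hγ, h3⟩ := G.mul_mem h1 h2
    rw [elM_mul hjl] at h3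
    refine ⟨γ, hγ, ?_⟩
    have e : elM j l x - γ = rowM j (Pi.single l (x - a * V.th ^ eps d j l
        - b * V.th ^ (eps d j l + 1))) + (elM j l (a * V.th ^ (eps d j l + 0)
        + b * V.th ^ (eps d j l + 1)) - γ) := by
      ext s t
      simp only [elM, rowM, Matrix.add_apply, Matrix.sub_apply, Matrix.of_apply, Pi.single_apply]
      split_ifs <;> ring
    rw [e]
    refine DV.In.add (In_rowM fun t => ?_) h3
    by_cases ht : t = l
    · subst ht
      simpa [add_comm] using hab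
    · simpa [ht] using DV.ge_zero _
  obtain ⟨p, p', k, k', Cl, τ, hp, hk, ⟨γ, hγ, hkγ⟩, hcard, hcl⟩ := bruhat (V := V) hd G
    (fun j x hj hx => by
      rw [row_eq j x hj]
      exact G.mul_mem (G.mul_mem (hel _ _ _ (fun e => e ▸ hj) (hx 0))
        (hel _ _ _ (fun e => e ▸ hj) (hx 1))) (hel _ _ _ (fun e => e ▸ hj) (hx 2)))
    g g' hg 3 le_rfl
  have hCl : Cl = Finset.univ := Finset.eq_univ_of_card _ (by simpa using hcard)
  subst hCl
  obtain ⟨γ', hγ'⟩ := hS γ hγ
  have hg' : g' * g = 1 := mul_eq_one_comm.1 hg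
  refine hc τ (cleared_inj hcl) _ fun t => good_of_par (V := V) (Y := k' * γ * Y t * (γ' * k))
    hcl ?_ (robust_conj (hY t) ?_ ?_ (hr t)) ((H γ hγ γ' hγ' t).conj hp)
  · calc p * (g * (γ * Y t * γ') * g') * p' * (p * g * k)
          = p * g * (γ * Y t * γ') * (g' * (p' * p) * g) * k := by simp only [Matrix.mul_assoc]
      _ = p * g * (k * k') * (γ * Y t * γ') * k := by
          rw [hp.rl, Matrix.mul_one, hg', Matrix.mul_one, hk.lr, Matrix.mul_one]
      _ = _ := by simp only [Matrix.mul_assoc]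
  · have e : k' * γ - 1 = 0 - k' * (k - γ) := by
      rw [mul_sub, hk.rl]
      abel
    rw [e]
    exact (DV.In_zero 2).sub (by simpa using hk.r.mul hkγ)
  · have e : γ' * k - 1 = γ' * (k - γ) := by rw [mul_sub, hγ'.rl]
    rw [e]
    simpa using hγ'.r.mul hkγ

end Pool.Agent.MP_d97ab6_al.H76
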