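import Mathlib

/-! Discrete valuations with residue field of three elements, hereditary orders in `3 × 3`
matrices and the parity invariant. -/

namespace Pool.Agent.MP_d97ab6_al.H76

open Matrix

/-- A discrete valuation with uniformiser `th`, residue field of order three and even values on
the rationals. -/
structure DV (K : Type) [Field K] where
  val : K → ℤ
  th : K
  val_mul : ∀ x y, x ≠ 0 → y ≠ 0 → val (x * y) = val x + val y
  val_add : ∀ x y n, x ≠ 0 → y ≠ 0 → x + y ≠ 0 → n ≤ val x → n ≤ val y → n ≤ val (x + y)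
  th_ne : th ≠ 0
  val_th : val th = 1
  th_sq : th * th = -3
  res : ∀ x, x ≠ 0 → val x = 0 → (x - 1 = 0 ∨ 1 ≤ val (x - 1)) ∨ (x + 1 = 0 ∨ 1 ≤ val (x + 1))
  rat : ∀ q : ℚ, (q : K) ≠ 0 → Even (val (q : K))

variable {K : Type} [Field K] (V : DV K)

namespace DV

def ge (x : K) (n : ℤ) : Prop := x = 0 ∨ n ≤ V.val x

def ex (x : K) (n : ℤ) : Prop := x ≠ 0 ∧ V.val x = n

variable {V}

theorem val_one : V.val 1 = 0 := by
  have := V.val_mul 1 1 one_ne_zero one_ne_zero
  rw [mul_one] at this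
  omega

theorem val_neg_one : V.val (-1) = 0 := by
  have h : (-1 : K) ≠ 0 := neg_ne_zero.mpr one_ne_zero
  have := V.val_mul (-1) (-1) h h
  rw [neg_mul_neg, mul_one, val_one] at this
  omega

theorem ge_zero (n : ℤ) : V.ge 0 n := Or.inl rfl

theorem ge.mono {x : K} {n m : ℤ} (h : V.ge x n) (hm : m ≤ n) : V.ge x m := by
  rcases h with h | h
  · exact Or.inl h
  · exact Or.inr (by omega)

theorem ge.add {x y : K} {n : ℤ} (hx : V.ge x n) (hy : V.ge y n) : V.ge (x + y) n := by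
  by_cases h0 : x = 0
  · simpa [h0] using hy
  by_cases h1 : y = 0
  · simpa [h1] using hx
  by_cases h2 : x + y = 0
  · exact Or.inl h2
  exact Or.inr (V.val_add x y n h0 h1 h2 (hx.resolve_left h0) (hy.resolve_left h1))

theorem ge.mul {x y : K} {n m : ℤ} (hx : V.ge x n) (hy : V.ge y m) : V.ge (x * y) (n + m) := by
  by_cases h0 : x = 0
  · exact Or.inl (by simp [h0])
  by_cases h1 : y = 0
  · exact Or.inl (by simp [h1])
  have := V.val_mul x y h0 h1
  have := hx.resolve_left h0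
  have := hy.resolve_left h1
  exact Or.inr (by omega)

theorem ex.ge {x : K} {n : ℤ} (h : V.ex x n) : V.ge x n := Or.inr h.2.ge

theorem ex.not_ge {x : K} {n : ℤ} (h : V.ex x n) : ¬ V.ge x (n + 1) := by
  rintro (h0 | h0)
  · exact h.1 h0
  · have := h.2
    omega

theorem ex_of {x : K} {n : ℤ} (h : V.ge x n) (h' : ¬ V.ge x (n + 1)) : V.ex x n := by
  have h0 : x ≠ 0 := fun h0 => h' (Or.inl h0)
  have h1 := h.resolve_left h0
  have h2 : ¬ (n + 1 ≤ V.val x) := fun h2 => h' (Or.inr h2)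
  exact ⟨h0, by omega⟩

theorem ex.mul {x y : K} {n m : ℤ} (hx : V.ex x n) (hy : V.ex y m) : V.ex (x * y) (n + m) :=
  ⟨mul_ne_zero hx.1 hy.1, by rw [V.val_mul x y hx.1 hy.1, hx.2, hy.2]⟩

theorem ex_one : V.ex 1 0 := ⟨one_ne_zero, val_one⟩

theorem ex_neg_one : V.ex (-1) 0 := ⟨neg_ne_zero.mpr one_ne_zero, val_neg_one⟩

theorem ex_th : V.ex V.th 1 := ⟨V.th_ne, V.val_th⟩

theorem ex.neg {x : K} {n : ℤ} (h : V.ex x n) : V.ex (-x) n := by
  simpa using ex_neg_one.mul h

theorem ge.neg {x : K} {n : ℤ} (h : V.ge x n) : V.ge (-x) n := by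
  simpa using ex_neg_one.ge.mul h

theorem ge.sub {x y : K} {n : ℤ} (hx : V.ge x n) (hy : V.ge y n) : V.ge (x - y) n := by
  rw [sub_eq_add_neg]
  exact hx.add hy.neg

theorem ex.inv {x : K} {n : ℤ} (h : V.ex x n) : V.ex x⁻¹ (-n) := by
  have h1 := V.val_mul x x⁻¹ h.1 (inv_ne_zero h.1)
  rw [mul_inv_cancel₀ h.1, val_one, h.2] at h1
  exact ⟨inv_ne_zero h.1, by omega⟩

theorem ex.add_ge {x y : K} {n : ℤ} (hx : V.ex x n) (hy : V.ge y (n + 1)) : V.ex (x + y) n := by
  refine ex_of (hx.ge.add (hy.mono (by omega))) fun h => hx.not_ge ?_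
  simpa using h.sub hy

theorem ex_self {x : K} (h : x ≠ 0) : V.ex x (V.val x) := ⟨h, rfl⟩

theorem ge_sum {ι : Type} (s : Finset ι) (f : ι → K) (n : ℤ) (h : ∀ i ∈ s, V.ge (f i) n) :
    V.ge (∑ i ∈ s, f i) n :=
  Finset.sum_induction f (fun x => V.ge x n) (fun _ _ => ge.add) (ge_zero n) h

theorem ge_int (m : ℤ) : V.ge (m : K) 0 := by
  induction m using Int.induction_on with
  | zero => simpa using ge_zero 0
  | succ i hi => push_cast; exact ge.add (by simpa using hi) ex_one.ge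
  | pred i hi => push_cast; exact ge.sub (by simpa using hi) ex_one.ge

theorem ex_three : V.ex 3 2 := by
  have := (ex_th (V := V)).mul ex_th
  rw [V.th_sq] at this
  simpa using this.neg

theorem ex_th_pow (k : ℕ) : V.ex (V.th ^ k) k := by
  induction k with
  | zero => simpa using ex_one
  | succ k ih => rw [pow_succ]; push_cast; exact ih.mul ex_th

/-- Residues modulo the uniformiser. -/
theorem res1 {x : K} (h : V.ge x 0) : ∃ a : ℕ, V.ge (x - a) 1 := by
  by_cases h1 : V.ge x 1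
  · exact ⟨0, by simpa using h1⟩
  have h2 := ex_of h (by simpa using h1)
  rcases V.res x h2.1 h2.2 with h3 | h3
  · have h4 : V.ge (x - 1) 1 := h3
    exact ⟨1, by simpa using h4⟩
  · refine ⟨2, ?_⟩
    have h4 : V.ge (x + 1) 1 := h3
    have h5 := h4.sub (ex_three.ge.mono (by omega : (1 : ℤ) ≤ 2))
    have : x + 1 - 3 = x - (2 : ℕ) := by push_cast; ring
    rwa [this] at h5

theorem res_shift {x : K} (k : ℕ) (h : V.ge x k) : ∃ a : ℕ, V.ge (x - a * V.th ^ k) (k + 1) := by
  have hk := ex_th_pow (V := V) k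
  obtain ⟨a, ha⟩ := res1 (V := V) (x := x * (V.th ^ k)⁻¹) (by simpa using h.mul hk.inv.ge)
  refine ⟨a, ?_⟩
  have h1 := ha.mul hk.ge
  have : (x * (V.th ^ k)⁻¹ - a) * V.th ^ k = x - a * V.th ^ k := by
    have := hk.1
    field_simp
  rw [this, add_comm] at h1
  exact h1

theorem res2 {x : K} (k : ℕ) (h : V.ge x k) :
    ∃ a b : ℕ, V.ge (x - a * V.th ^ k - b * V.th ^ (k + 1)) (k + 2) := by
  obtain ⟨a, ha⟩ := res_shift k h
  obtain ⟨b, hb⟩ := res_shift (V := V) (k + 1) (x := x - a * V.th ^ k) (by push_cast; exact ha)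
  exact ⟨a, b, hb.mono (by push_cast; omega)⟩

end DV

abbrev Mx (K : Type) := Matrix (Fin 3) (Fin 3) K

/-- The shape of the order: `d = 1` for an edge of the building, `d = 0` for a vertex. -/
def eps (d : ℕ) (i j : Fin 3) : ℕ := if i ≠ 0 ∧ j = 0 then d else 0

theorem eps_tri (d : ℕ) (i l j : Fin 3) : eps d i j ≤ eps d i l + eps d l j := by
  unfold eps
  split_ifs <;> simp_all

theorem eps_self (d : ℕ) (i : Fin 3) : eps d i i = 0 := by
  unfold eps
  split_ifs <;> simp_all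

/-- Membership in the `n`-th power of the uniformiser times the order. -/
def DV.In (d : ℕ) (X : Mx K) (n : ℤ) : Prop := ∀ i j, V.ge (X i j) (n + eps d i j)

namespace DV

variable {V} {d : ℕ}

theorem In.mul {X Y : Mx K} {n m : ℤ} (hX : V.In d X n) (hY : V.In d Y m) :
    V.In d (X * Y) (n + m) := by
  intro i j
  rw [Matrix.mul_apply]
  refine ge_sum _ _ _ fun l _ => ((hX i l).mul (hY l j)).mono ?_
  have := eps_tri d i l j
  omega

theorem In.add {X Y : Mx K} {n : ℤ} (hX : V.In d X n) (hY : V.In d Y n) : V.In d (X + Y) n :=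
  fun i j => (hX i j).add (hY i j)

theorem In.sub {X Y : Mx K} {n : ℤ} (hX : V.In d X n) (hY : V.In d Y n) : V.In d (X - Y) n :=
  fun i j => (hX i j).sub (hY i j)

theorem In.mono {X : Mx K} {n m : ℤ} (hX : V.In d X n) (h : m ≤ n) : V.In d X m :=
  fun i j => (hX i j).mono (by omega)

theorem In.smul {X : Mx K} {n m : ℤ} {c : K} (hc : V.ge c m) (hX : V.In d X n) :
    V.In d (c • X) (m + n) := fun i j => by
  have := hc.mul (hX i j)
  rw [← add_assoc] at this
  exact this

theorem In_one : V.In d (1 : Mx K) 0 := by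
  intro i j
  by_cases h : i = j
  · subst h
    simpa [eps_self] using ex_one.ge
  · rw [Matrix.one_apply_ne h]
    exact ge_zero _

theorem In_zero (n : ℤ) : V.In d (0 : Mx K) n := fun _ _ => ge_zero _

end DV

/-- A pair of mutually inverse elements of the order. -/
structure DV.U (d : ℕ) (p p' : Mx K) : Prop where
  l : V.In d p 0
  r : V.In d p' 0
  lr : p * p' = 1
  rl : p' * p = 1

/-- The parity invariant. -/
def DV.Par (X : Mx K) : Prop := ∃ n : ℤ, Even n ∧ V.In 1 X n ∧ ¬ V.In 1 X (n + 1)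

namespace DV

variable {V} {d : ℕ}

theorem U_one : V.U d 1 1 := ⟨In_one, In_one, by simp, by simp⟩

theorem U.symm {p p' : Mx K} (h : V.U d p p') : V.U d p' p := ⟨h.r, h.l, h.rl, h.lr⟩

theorem U.mul {p p' q q' : Mx K} (h : V.U d p p') (k : V.U d q q') :
    V.U d (p * q) (q' * p') := by
  refine ⟨by simpa using h.l.mul k.l, by simpa using k.r.mul h.r, ?_, ?_⟩
  · rw [Matrix.mul_assoc, ← Matrix.mul_assoc q, k.lr, Matrix.one_mul, h.lr]
  · rw [Matrix.mul_assoc, ← Matrix.mul_assoc p', h.rl, Matrix.one_mul, k.rl]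

theorem U.conj {p p' X : Mx K} {n : ℤ} (h : V.U d p p') (hX : V.In d X n) :
    V.In d (p * X * p') n := by
  simpa using (h.l.mul hX).mul h.r

theorem U.conj_iff {p p' X : Mx K} {n : ℤ} (h : V.U d p p') :
    V.In d (p * X * p') n ↔ V.In d X n := by
  refine ⟨fun hX => ?_, h.conj⟩
  have := h.symm.conj hX
  have e : p' * (p * X * p') * p = X := by
    rw [← Matrix.mul_assoc, ← Matrix.mul_assoc, h.rl, Matrix.one_mul, Matrix.mul_assoc, h.rl,
      Matrix.mul_one]
  rwa [e] at this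

theorem Par.conj {p p' X : Mx K} (h : V.U 1 p p') (hX : V.Par X) : V.Par (p * X * p') := by
  obtain ⟨n, h1, h2, h3⟩ := hX
  exact ⟨n, h1, h.conj h2, fun h4 => h3 (h.conj_iff.1 h4)⟩

theorem Par.smul {X : Mx K} {q : ℚ} (hq : (q : K) ≠ 0) (hX : V.Par X) : V.Par ((q : K) • X) := by
  obtain ⟨n, h1, h2, h3⟩ := hX
  have he := ex_self (V := V) hq
  refine ⟨V.val q + n, (V.rat q hq).add h1, h2.smul he.ge, fun h4 => h3 ?_⟩
  have := h4.smul he.inv.ge
  rw [smul_smul, inv_mul_cancel₀ hq, one_smul] at this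
  exact this.mono (by omega)

end DV

end Pool.Agent.MP_d97ab6_al.H76
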