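import Pool.Agent.MP_d97ab6_al.H76.Gen
import Pool.Agent.MP_d97ab6_al.H76.Comb

/-! Data for the two sporadic groups: generators in adapted coordinates, words for elementary
matrices, unipotent elements with prescribed valuations. -/

namespace Pool.Agent.MP_d97ab6_al.H76

open Matrix M9

def g3 : ℕ → M9
  | 0 =>
    ⟨⟨0, 1, 0, 0⟩, ⟨-1, 0, 1, 0⟩, ⟨1, 0, 1, 0⟩, ⟨0, 0, 0, 0⟩, ⟨1, 0, 0, 0⟩, ⟨0, 0, 0, 0⟩,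
      ⟨0, 0, 0, 0⟩, ⟨0, 0, 0, 0⟩, ⟨1, 0, 0, 0⟩⟩
  | 1 =>
    ⟨⟨-1, -1, 0, 0⟩, ⟨-1, -1, 1, 1⟩, ⟨1, 1, 1, 1⟩, ⟨0, 0, 0, 0⟩, ⟨1, 0, 0, 0⟩, ⟨0, 0, 0, 0⟩,
      ⟨0, 0, 0, 0⟩, ⟨0, 0, 0, 0⟩, ⟨1, 0, 0, 0⟩⟩
  | 2 =>
    ⟨⟨0, 0, 0, 0⟩, ⟨0, 0, 0, 0⟩, ⟨-1, -1, 0, 0⟩, ⟨1, 0, 0, 0⟩, ⟨0, 0, 0, 0⟩, ⟨0, 0, 0, 0⟩,
      ⟨0, 0, 0, 0⟩, ⟨1, 0, 0, 0⟩, ⟨0, 0, 0, 0⟩⟩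
  | 3 =>
    ⟨⟨0, 0, 0, 0⟩, ⟨1, 0, 0, 0⟩, ⟨0, 0, 0, 0⟩, ⟨0, 0, 0, 0⟩, ⟨0, 0, 0, 0⟩, ⟨1, 0, 0, 0⟩,
      ⟨0, 1, 0, 0⟩, ⟨0, 0, 0, 0⟩, ⟨0, 0, 0, 0⟩⟩
  | _ => M9.sc ⟨1, 1, 0, 0⟩

def el3 : ℕ → ℕ → ℕ → List ℕ
  | 0, 1, 0 => [1, 2, 1, 2, 0, 2, 1, 3, 1, 3, 1, 2, 1, 2, 0, 2, 1, 3, 1, 3, 1, 2, 1, 3, 0, 3, 1]
  | 0, 1, 1 => [0, 3, 0, 2, 0, 3, 0, 2, 0, 3, 0, 2]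
  | 0, 2, 0 => [0, 3, 0, 3, 0, 2, 0, 2, 0, 3, 1, 3, 0, 3, 1, 2, 1, 2, 0, 3, 0, 2, 0, 2, 0, 3, 0]
  | 0, 2, 1 => [2, 1, 2, 0, 2, 0, 3, 1, 3, 1, 3, 1, 2, 1, 3, 1, 2, 1, 2, 1, 2, 0, 3, 0, 3, 0, 3]
  | 1, 0, 0 => [0, 2, 1, 3, 1, 3, 1, 2, 1, 3, 0, 3, 0, 3, 1, 2, 1, 3, 0, 3, 0, 2, 1, 3, 1, 2, 4,
      4, 4, 4]
  | 1, 0, 1 => [0, 3, 0, 3, 0, 2, 1, 2, 1, 2, 1, 3, 1, 2, 1, 3, 1, 3, 1, 3, 0, 2, 0, 2, 1]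
  | 1, 2, 0 => [2, 0, 2, 0, 2, 0, 3, 1, 2, 1, 2, 1, 2, 1, 2, 1, 3, 0, 3, 0, 3, 0, 3, 0, 2, 1, 3,
      1, 2, 4, 4]
  | 1, 2, 1 => [0, 2, 0, 3, 0, 2, 0, 3, 0, 2, 0, 3]
  | 2, 0, 0 => [0, 3, 0, 2, 0, 3, 0, 2, 0, 3, 0, 3, 0, 2, 1, 3, 1, 3, 1, 3, 1, 2, 1, 3, 1, 2, 1,
      4, 4, 4, 4]
  | 2, 0, 1 => [2, 0, 2, 0, 3, 0, 2, 0, 3, 0, 2, 0, 2, 4, 4]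
  | 2, 1, 0 => [0, 2, 1, 2, 1, 2, 1, 2, 1, 2, 1, 3, 0, 3, 0, 3, 0, 3, 0, 3, 1, 3, 1, 3, 1, 3]
  | 2, 1, 1 => [1, 2, 0, 2, 0, 3, 1, 3, 1, 3, 1, 2, 1, 3, 1, 2, 1, 2, 1, 2, 0, 3, 0, 3, 0]
  | _, _, _ => []

def wit3 : Fin 4 → List ℕ :=
  ![[0, 2, 0, 3, 0, 2, 0, 2, 0, 2, 0, 3, 0, 2, 0, 3, 0, 2, 0, 3, 3, 1, 3, 1, 2, 1, 3, 1],
    [1, 2, 0, 3, 0, 3, 0, 2, 0, 2, 0, 3, 0, 2, 0, 3, 0, 2, 0, 3, 3, 1, 2, 1, 2, 1, 3, 0],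
    [2, 1, 2, 0, 3, 0, 2, 1, 2, 0, 2, 0, 2, 0, 3, 0, 2, 0, 3, 0, 2, 0, 3, 3, 1, 3, 0, 3, 1, 2, 1,
      3, 0, 3],
    [0, 3, 0, 2, 1, 2, 0, 2, 1, 2, 0, 2, 0, 2, 0, 3, 0, 2, 0, 3, 0, 2, 0, 3, 3, 1, 3, 0, 3, 1, 3,
      0, 3, 1, 2, 1]]

theorem hU3 (l : ℕ) : ∃ X, uB 0 (g3 l) X = true :=
  match l with
  | 0 => ⟨g3 1, by decide +kernel⟩
  | 1 => ⟨g3 0, by decide +kernel⟩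
  | 2 => ⟨g3 3, by decide +kernel⟩
  | 3 => ⟨g3 2, by decide +kernel⟩
  | _ + 4 => ⟨sc ⟨0, -1, 0, 0⟩, (by decide +kernel : uB 0 (g3 4) _ = true)⟩

theorem hE3 : ∀ j l : Fin 3, j ≠ l → ∀ e : Fin 2, elB 0 g3 j l e (el3 j l e) = true := by
  decide +kernel

theorem hW3 : ∀ k, witB (pi3 k) (nilZ g3 (wit3 k)) = true := by decide +kernel

theorem hD3 : descB 7 (nilZ g3 (wit3 0)) (nilZ g3 (wit3 1)) (nilZ g3 (wit3 2)) = true := by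
  decide +kernel

variable {K L : Type} [Field K] [Field L] {V : DV K} {w s : K}

theorem sep3 (E : Emb V w s) (P : Submonoid (Mx K)) (hP : ∀ l, toM w s (g3 l) ∈ P)
    (hinv : ∀ X ∈ P, ∀ X', X * X' = 1 → X' ∈ P) (φ : K →+* L) (g g' : Mx L) (hg : g * g' = 1)
    (H : ∀ Y : Mx K, 1 + Y ∈ P → Y * Y = 0 → Y ≠ 0 →
      ∃ Z, V.Par Z ∧ g * Y.map φ = Z.map φ * g) : False :=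
  coreL E (by omega) g3 el3 wit3 pi3 hU3 hE3 hW3 robust3 comb3 0 1 2 7 hD3 P hP hinv φ g g' hg H

end Pool.Agent.MP_d97ab6_al.H76
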