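import Pool.Agent.MP_d97ab6_al.H76.Gen
import Pool.Agent.MP_d97ab6_al.H76.Comb

/-! Data for the two sporadic groups: generators in adapted coordinates, words for elementary
matrices, unipotent elements with prescribed valuations. -/

namespace Pool.Agent.MP_d97ab6_al.H76

open Matrix M9

def g6 : ℕ → M9
  | 0 =>
    ⟨⟨3, 1, 0, 0⟩, ⟨-1, 0, 1, 0⟩, ⟨1, 0, 1, 0⟩, ⟨2, 1, 0, 0⟩, ⟨0, 0, 1, 0⟩, ⟨1, 0, 1, 0⟩,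
      ⟨-2, -1, 0, 0⟩, ⟨1, 0, -1, 0⟩, ⟨0, 0, -1, 0⟩⟩
  | 1 =>
    ⟨⟨0, 1, 0, 0⟩, ⟨0, -1, 0, 1⟩, ⟨0, 1, 0, 1⟩, ⟨-1, 1, 0, 0⟩, ⟨1, -1, 0, 1⟩, ⟨0, 1, 0, 1⟩,
      ⟨1, -1, 0, 0⟩, ⟨0, 1, 0, -1⟩, ⟨1, -1, 0, -1⟩⟩
  | 2 =>
    ⟨⟨0, -1, 0, 0⟩, ⟨0, 0, 0, 0⟩, ⟨0, -1, 0, 0⟩, ⟨1, -1, 0, 0⟩, ⟨0, 0, 0, 0⟩, ⟨0, -1, 0, 0⟩,
      ⟨-1, 1, 0, 0⟩, ⟨1, 0, 0, 0⟩, ⟨0, 1, 0, 0⟩⟩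
  | 3 =>
    ⟨⟨-1, 0, 0, 0⟩, ⟨1, 0, 0, 0⟩, ⟨0, 0, 0, 0⟩, ⟨0, 0, 0, 0⟩, ⟨1, 0, 0, 0⟩, ⟨1, 0, 0, 0⟩,
      ⟨2, 1, 0, 0⟩, ⟨-1, 0, 0, 0⟩, ⟨0, 0, 0, 0⟩⟩
  | _ => M9.sc ⟨1, 1, 0, 0⟩

def el6 : ℕ → ℕ → ℕ → List ℕ
  | 0, 1, 0 => [0, 3, 0, 2, 1, 3, 0, 2, 1, 2, 1, 3, 1, 2, 0, 2, 0, 3, 0, 3, 1, 2, 1, 3]
  | 0, 1, 1 => [0, 3, 0, 3, 0, 3, 1, 3, 1, 3, 0, 3, 1, 3, 0, 0, 0, 3]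
  | 0, 2, 0 => [0, 3, 0, 3, 0, 2, 0, 3, 0, 3, 1, 2, 0, 3, 0, 2, 0, 2, 1, 3, 0, 2, 1, 2, 4, 4]
  | 0, 2, 1 => [0, 0, 2, 0, 2, 1, 2, 0, 2, 0, 2, 1, 2, 1, 2, 1, 2, 0]
  | 1, 0, 0 => [2, 0, 2, 0, 2, 1, 3, 0, 2, 0, 3, 1, 3, 0, 2, 1, 3, 1, 3, 1, 2, 0, 2, 1, 2, 4, 4,
      4, 4, 4]
  | 1, 0, 1 => [0, 2, 0, 0, 0, 2, 1, 2, 1, 2, 1, 2, 0, 2, 0, 2, 1, 2]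
  | 1, 2, 0 => [3, 0, 2, 0, 2, 0, 3, 1, 3, 0, 3, 1, 2, 1, 2, 0, 2, 1, 3, 1, 3, 1, 3, 0, 3, 4, 4,
      4, 4, 4]
  | 1, 2, 1 => [1, 2, 0, 0, 2, 0, 3, 1, 3, 1, 3, 0, 3, 0, 3, 0, 3, 0, 3, 4]
  | 2, 0, 0 => [0, 0, 3, 1, 2, 0, 3, 1, 3, 0, 2, 1, 3, 1, 3, 0, 2, 1, 2, 0, 3, 0, 2, 1, 2, 1]
  | 2, 0, 1 => [0, 3, 1, 3, 1, 3, 0, 3, 0, 3, 0, 3, 0, 0, 0, 3, 1, 3]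
  | 2, 1, 0 => [0, 2, 0, 3, 0, 2, 1, 3, 0, 2, 0, 2, 0, 3, 1, 1, 3, 1, 3, 0, 2, 1, 3, 0, 3, 0]
  | 2, 1, 1 => [0, 2, 0, 2, 1, 2, 1, 2, 1, 2, 1, 2, 0, 3, 0, 0, 3, 0, 2, 4, 4, 4, 4, 4]
  | _, _, _ => []

def wit6 : Fin 3 → List ℕ :=
  ![[0, 2, 0, 3, 3, 0, 2, 2, 0, 3, 3, 1, 2, 2, 1, 3, 0, 2, 0, 3, 3, 0, 2, 2, 0, 3, 3, 1, 2, 2, 1,
      3, 0, 2, 0, 3, 3, 0, 2, 2, 0, 3, 3, 1, 2, 2, 1, 3],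
    [0, 3, 0, 2, 0, 2, 0, 3, 1, 3, 1, 2, 0, 3, 0, 2, 0, 2, 0, 3, 1, 3, 1, 2, 0, 3, 0, 2, 0, 2, 0,
      3, 1, 3, 1, 2],
    [0, 3, 0, 3, 0, 2, 0, 3, 3, 0, 2, 2, 0, 3, 3, 1, 2, 2, 1, 3, 0, 2, 0, 3, 3, 0, 2, 2, 0, 3, 3,
      1, 2, 2, 1, 3, 0, 2, 0, 3, 3, 0, 2, 2, 0, 3, 3, 1, 2, 2, 1, 3, 2, 1, 2, 1]]

theorem hU6 (l : ℕ) : ∃ X, uB 1 (g6 l) X = true :=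
  match l with
  | 0 => ⟨g6 1, by decide +kernel⟩
  | 1 => ⟨g6 0, by decide +kernel⟩
  | 2 => ⟨g6 3, by decide +kernel⟩
  | 3 => ⟨g6 2, by decide +kernel⟩
  | _ + 4 => ⟨sc ⟨0, -1, 0, 0⟩, (by decide +kernel : uB 1 (g6 4) _ = true)⟩

theorem hE6 : ∀ j l : Fin 3, j ≠ l → ∀ e : Fin 2, elB 1 g6 j l e (el6 j l e) = true := by
  decide +kernel

theorem hW6 : ∀ k, witB (pi6 k) (nilZ g6 (wit6 k)) = true := by decide +kernel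

theorem hD6 : descB 9 (nilZ g6 (wit6 1)) (nilZ g6 (wit6 0)) (nilZ g6 (wit6 2)) = true := by
  decide +kernel

variable {K L : Type} [Field K] [Field L] {V : DV K} {w s : K}

theorem sep6 (E : Emb V w s) (P : Submonoid (Mx K)) (hP : ∀ l, toM w s (g6 l) ∈ P)
    (hinv : ∀ X ∈ P, ∀ X', X * X' = 1 → X' ∈ P) (φ : K →+* L) (g g' : Mx L) (hg : g * g' = 1)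
    (H : ∀ Y : Mx K, 1 + Y ∈ P → Y * Y = 0 → Y ≠ 0 →
      ∃ Z, V.Par Z ∧ g * Y.map φ = Z.map φ * g) : False :=
  coreL E le_rfl g6 el6 wit6 pi6 hU6 hE6 hW6 robust6 comb6 1 0 2 9 hD6 P hP hinv φ g g' hg H

end Pool.Agent.MP_d97ab6_al.H76
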