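import Pool.Agent.MP_d97ab6_al.H76.Core

/-! Descent of an intertwining matrix to a subfield. -/

namespace Pool.Agent.MP_d97ab6_al.H76

open Matrix

variable {K L : Type} [Field K] [Field L]

def un (i j : Fin 3) : Mx K := Matrix.single i j 1

theorem un_map (φ : K →+* L) (i j : Fin 3) : (un i j : Mx K).map φ = un i j := by
  ext a b
  simp only [un, Matrix.map_apply, Matrix.single_apply]
  split_ifs <;> simp

theorem mul_un (X : Mx K) (i j a b : Fin 3) :
    (X * (un i j : Mx K)) a b = if b = j then X a i else 0 := by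
  by_cases h : b = j
  · subst h
    simp [un]
  · simp [un, h]

theorem descent (φ : K →+* L) (G G' : Mx L) (hG : G * G' = 1) (Y1 Y2 Y3 Z1 Z2 Z3 : Mx K)
    (h1 : G * Y1.map φ = Z1.map φ * G) (h2 : G * Y2.map φ = Z2.map φ * G)
    (h3 : G * Y3.map φ = Z3.map φ * G) (hy : Y1 0 0 ≠ 0)
    (hr : Y1 0 0 • Y1 = Y1 * un 0 0 * Y1)
    (hdet : (Y1 * un 0 0 - Y2 * (Y1 * un 0 1) - Y3 * (Y1 * un 0 2)).det ≠ 0) :
    ∃ g g' : Mx K, g * g' = 1 ∧ ∀ Y Z : Mx K, G * Y.map φ = Z.map φ * G → g * Y * g' = Z := by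
  have hG' : G' * G = 1 := mul_eq_one_comm.1 hG
  have hy' : φ (Y1 0 0) ≠ 0 := (map_ne_zero φ).2 hy
  obtain ⟨j0, hj0⟩ : ∃ j, (Y1.map φ * G') 0 j ≠ 0 := by
    by_contra h
    push Not at h
    have e : (Y1.map φ * G' * G) 0 0 = 0 := by
      rw [Matrix.mul_apply]
      simp [h]
    rw [Matrix.mul_assoc, hG', Matrix.mul_one] at e
    exact hy' e
  have hr' : φ (Y1 0 0) • Y1.map φ = Y1.map φ * un 0 0 * Y1.map φ := by
    rw [← un_map φ, ← Matrix.map_mul, ← Matrix.map_mul, ← hr]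
    ext a b
    simp
  have hz : φ (Y1 0 0) • Z1.map φ = G * Y1.map φ * un 0 0 * (Y1.map φ * G') := by
    calc φ (Y1 0 0) • Z1.map φ = φ (Y1 0 0) • (Z1.map φ * G * G') := by
          rw [Matrix.mul_assoc, hG, Matrix.mul_one]
      _ = G * (φ (Y1 0 0) • Y1.map φ) * G' := by
          rw [← h1, Matrix.mul_smul, Matrix.smul_mul]
      _ = _ := by rw [hr']; simp only [Matrix.mul_assoc]
  set μ := (Y1.map φ * G') 0 j0 with hμ
  have hcol : ∀ j, G * (Y1.map φ * un 0 j) = (φ (Y1 0 0) / μ) • (Z1 * un j0 j).map φ := by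
    intro j
    ext a b
    have e := congrFun (congrFun hz a) j0
    rw [Matrix.mul_apply (M := G * Y1.map φ * un 0 0)] at e
    simp only [mul_un, Fin.sum_univ_three, Matrix.smul_apply, Matrix.map_apply, smul_eq_mul] at e
    simp only [← Matrix.mul_assoc, mul_un, Matrix.smul_apply, Matrix.map_apply, smul_eq_mul]
    split_ifs with hb
    · simp only [Fin.isValue, ↓reduceIte, one_ne_zero, zero_mul, add_zero, Fin.reduceEq] at e
      rw [div_mul_eq_mul_div, e, ← hμ]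
      field_simp
    · simp
  set U := Y1 * un 0 0 - Y2 * (Y1 * un 0 1) - Y3 * (Y1 * un 0 2) with hU
  set W := Z1 * un j0 0 - Z2 * (Z1 * un j0 1) - Z3 * (Z1 * un j0 2) with hW
  set c := φ (Y1 0 0) / μ with hc
  have hc0 : c ≠ 0 := div_ne_zero hy' hj0
  have hGU : G * U.map φ = c • W.map φ := by
    have hs : ∀ A B : Mx K, (A - B).map φ = A.map φ - B.map φ := fun A B => by
      ext a b
      simp
    rw [hU, hW]
    simp only [hs, Matrix.map_mul (L := Y2), Matrix.map_mul (L := Y3), Matrix.map_mul (L := Y1),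
      Matrix.map_mul (L := Z2), Matrix.map_mul (L := Z3), un_map, mul_sub, smul_sub]
    rw [← Matrix.mul_assoc G (Y2.map φ), h2, ← Matrix.mul_assoc G (Y3.map φ), h3,
      Matrix.mul_assoc (Z2.map φ), Matrix.mul_assoc (Z3.map φ), hcol, hcol, hcol,
      Matrix.mul_smul, Matrix.mul_smul]
  have hUi : U * U⁻¹ = 1 := Matrix.mul_nonsing_inv _ (Ne.isUnit hdet)
  have hGg : G = c • (W * U⁻¹).map φ := by
    rw [Matrix.map_mul, ← Matrix.smul_mul, ← hGU, Matrix.mul_assoc, ← Matrix.map_mul, hUi]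
    simp
  have hd : (W * U⁻¹).det ≠ 0 := by
    intro h
    have e := congrArg Matrix.det hG
    rw [Matrix.det_mul, hGg, Matrix.det_smul, ← RingHom.mapMatrix_apply, ← RingHom.map_det, h] at e
    simp at e
  have hgi : W * U⁻¹ * (W * U⁻¹)⁻¹ = 1 := Matrix.mul_nonsing_inv _ (Ne.isUnit hd)
  refine ⟨W * U⁻¹, (W * U⁻¹)⁻¹, hgi, fun Y Z h => ?_⟩
  rw [hGg, Matrix.smul_mul, Matrix.mul_smul, ← Matrix.map_mul, ← Matrix.map_mul] at h
  have h' := Matrix.map_injective φ.injective (smul_right_injective _ hc0 h)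
  rw [h', Matrix.mul_assoc, hgi, Matrix.mul_one]

end Pool.Agent.MP_d97ab6_al.H76
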