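import Pool.Agent.MP_d97ab6_al.H76.DV

/-! Elimination: every invertible matrix is monomial up to units of two orders. -/

namespace Pool.Agent.MP_d97ab6_al.H76

open Matrix

variable {K : Type} [Field K] {V : DV K}

def rowM (j : Fin 3) (x : Fin 3 → K) : Mx K := Matrix.of fun a b => if a = j then x b else 0

def colM (i : Fin 3) (y : Fin 3 → K) : Mx K := Matrix.of fun a b => if b = i then y a else 0

theorem mul_rowM (g : Mx K) (j : Fin 3) (x : Fin 3 → K) (a b : Fin 3) :
    (g * rowM j x) a b = g a j * x b := by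
  simp [rowM, Matrix.mul_apply]

theorem colM_mul (g : Mx K) (i : Fin 3) (y : Fin 3 → K) (a b : Fin 3) :
    (colM i y * g) a b = y a * g i b := by
  simp [colM, Matrix.mul_apply]

theorem rowM_sq {j : Fin 3} {x : Fin 3 → K} (h : x j = 0) : rowM j x * rowM j x = 0 := by
  ext a b
  rw [mul_rowM]
  simp [rowM, h]

theorem colM_sq {i : Fin 3} {y : Fin 3 → K} (h : y i = 0) : colM i y * colM i y = 0 := by
  ext a b
  rw [colM_mul]
  simp [colM, h]

theorem U_unip {d : ℕ} {X : Mx K} (h : V.In d X 0) (h2 : X * X = 0) : V.U d (1 + X) (1 - X) := by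
  refine ⟨DV.In_one.add h, DV.In_one.sub h, ?_, ?_⟩
  · rw [add_mul, mul_sub, mul_sub, h2]; simp
  · rw [sub_mul, mul_add, mul_add, h2]; simp

theorem In_rowM {d : ℕ} {j : Fin 3} {x : Fin 3 → K} {n : ℤ} (h : ∀ l, V.ge (x l) (n + eps d j l)) :
    V.In d (rowM j x) n := by
  intro a b
  by_cases ha : a = j
  · subst ha
    simpa [rowM] using h b
  · simpa [rowM, ha] using DV.ge_zero _

theorem In_colM {d : ℕ} {i : Fin 3} {y : Fin 3 → K} {n : ℤ} (h : ∀ l, V.ge (y l) (n + eps d l i)) :
    V.In d (colM i y) n := by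
  intro a b
  by_cases hb : b = i
  · subst hb
    simpa [colM] using h a
  · simpa [colM, hb] using DV.ge_zero _

/-- The rows in `Cl` are cleared. -/
def Cleared (g : Mx K) (Cl : Finset (Fin 3)) (τ : Fin 3 → Fin 3) : Prop :=
  ∀ i ∈ Cl, g i (τ i) ≠ 0 ∧ (∀ j, j ≠ τ i → g i j = 0) ∧ ∀ l, l ≠ i → g l (τ i) = 0

theorem ge_div {x y : K} (hy : y ≠ 0) {n : ℤ} (h : x ≠ 0 → n + V.val y ≤ V.val x) :
    V.ge (-(x / y)) n := by
  by_cases hx : x = 0
  · simpa [hx] using DV.ge_zero n
  have h1 := (DV.ex_self (V := V) hx).mul (DV.ex_self (V := V) hy).inv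
  rw [← div_eq_mul_inv] at h1
  have := h hx
  exact h1.neg.ge.mono (by omega)

theorem step {d : ℕ} (hd : d ≤ 1) (g : Mx K) (Cl : Finset (Fin 3)) (τ : Fin 3 → Fin 3)
    (hc : Cleared g Cl τ) (hne : ∃ i, i ∉ Cl ∧ ∃ j, g i j ≠ 0) :
    ∃ (i j : Fin 3) (x y : Fin 3 → K), i ∉ Cl ∧ x j = 0 ∧ y i = 0 ∧
      (∀ l, V.ge (x l) (0 + eps d j l)) ∧ (∀ l, V.ge (y l) (0 + eps 1 l i)) ∧
      Cleared ((1 + colM i y) * g * (1 + rowM j x)) (insert i Cl) (Function.update τ i j) := by
  classical
  let S : Finset (Fin 3 × Fin 3) := Finset.univ.filter fun q => q.1 ∉ Cl ∧ g q.1 q.2 ≠ 0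
  have hS : S.Nonempty := by
    obtain ⟨i, hi, j, hj⟩ := hne
    exact ⟨(i, j), by simp [S, hi, hj]⟩
  let w : Fin 3 × Fin 3 → ℤ := fun q =>
    2 * V.val (g q.1 q.2) + (if q.1 = 0 then 1 else 0) - (if q.2 = 0 then (d : ℤ) else 0)
  obtain ⟨⟨i, j⟩, hq, hmin⟩ := S.exists_min_image w hS
  have hi : i ∉ Cl := by simpa using (Finset.mem_filter.1 hq).2.1
  have hij : g i j ≠ 0 := (Finset.mem_filter.1 hq).2.2
  have hlj : ∀ l ∈ Cl, g l j = 0 := by
    intro l hl
    refine (hc l hl).2.1 j fun e => hij ?_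
    rw [e]
    exact (hc l hl).2.2 i fun e' => hi (e' ▸ hl)
  let x : Fin 3 → K := fun l => if l = j then 0 else -(g i l / g i j)
  let y : Fin 3 → K := fun l => if l = i then 0 else -(g l j / g i j)
  have hrow : ∀ b, (g * (1 + rowM j x)) i b = if b = j then g i j else 0 := by
    intro b
    rw [mul_add, Matrix.mul_one, Matrix.add_apply, mul_rowM]
    by_cases hb : b = j
    · simp [x, hb]
    · simp only [x, hb, if_false]
      field_simp
      ring
  have hent : ∀ a b, ((1 + colM i y) * g * (1 + rowM j x)) a b =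
      g a b + g a j * x b + y a * (if b = j then g i j else 0) := by
    intro a b
    rw [Matrix.mul_assoc, add_mul, Matrix.one_mul, Matrix.add_apply, colM_mul, hrow, mul_add,
      Matrix.mul_one, Matrix.add_apply, mul_rowM]
  refine ⟨i, j, x, y, hi, by simp [x], by simp [y], ?_, ?_, ?_⟩
  · intro l
    by_cases hl : l = j
    · simpa [x, hl] using DV.ge_zero _
    simp only [x, hl, if_false]
    refine ge_div hij fun h => ?_
    have := hmin (i, l) (by simp [S, hi, h])
    simp only [w, eps] at this ⊢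
    split_ifs at this ⊢ <;> simp_all <;> omega
  · intro l
    by_cases hl : l = i
    · simpa [y, hl] using DV.ge_zero _
    simp only [y, hl, if_false]
    refine ge_div hij fun h => ?_
    have := hmin (l, j) (by simpa [S, h] using fun hl' => h (hlj l hl'))
    simp only [w, eps] at this ⊢
    split_ifs at this ⊢ <;> simp_all <;> omega
  · intro a ha
    by_cases hai : a = i
    · subst hai
      simp only [Function.update_self, hent]
      refine ⟨by simpa [x, y] using hij, fun b hb => ?_, fun l hl => ?_⟩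
      · simp only [x, hb, if_false]
        field_simp
        ring
      · simp only [x, y, hl, if_false, if_true]
        field_simp
        ring
    · have ha' : a ∈ Cl := by simpa [hai] using ha
      obtain ⟨h1, h2, h3⟩ := hc a ha'
      have hja : τ a ≠ j := fun e => h1 (e ▸ hlj a ha')
      have hia : g i (τ a) = 0 := h3 i (Ne.symm hai)
      simp only [Function.update_of_ne hai, hent]
      refine ⟨by simpa [hlj a ha', hja] using h1, fun b hb => ?_, fun l hl => ?_⟩
      · simp [hlj a ha', h2 b hb, y, hai]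
      · simp [h3 l hl, x, hja, hia]

theorem bruhat {d : ℕ} (hd : d ≤ 1) (G : Submonoid (Mx K))
    (hG : ∀ (j : Fin 3) (x : Fin 3 → K), x j = 0 → (∀ l, V.ge (x l) (0 + eps d j l)) →
      1 + rowM j x ∈ G) (g g' : Mx K) (hg : g * g' = 1) (n : ℕ) (hn : n ≤ 3) :
    ∃ (p p' k k' : Mx K) (Cl : Finset (Fin 3)) (τ : Fin 3 → Fin 3), V.U 1 p p' ∧ V.U d k k' ∧
      k ∈ G ∧ Cl.card = n ∧ Cleared (p * g * k) Cl τ := by
  induction n with
  | zero => exact ⟨1, 1, 1, 1, ∅, id, DV.U_one, DV.U_one, G.one_mem, rfl, fun i hi => by simp at hi⟩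
  | succ n ih =>
    obtain ⟨p, p', k, k', Cl, τ, hp, hk, hkG, hcard, hc⟩ := ih (by omega)
    have hne : ∃ i, i ∉ Cl ∧ ∃ j, (p * g * k) i j ≠ 0 := by
      have : ∃ i, i ∉ Cl := by
        by_contra h
        push Not at h
        have : Cl = Finset.univ := Finset.eq_univ_of_forall h
        rw [this] at hcard
        simp at hcard
        omega
      obtain ⟨i, hi⟩ := this
      refine ⟨i, hi, ?_⟩
      by_contra h
      push Not at h
      have e : p * g * k * (k' * g' * p') = 1 := by
        calc p * g * k * (k' * g' * p') = p * (g * (k * k') * g') * p' := by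
              simp only [Matrix.mul_assoc]
          _ = 1 := by rw [hk.lr, Matrix.mul_one, hg, Matrix.mul_one, hp.lr]
      have := congrFun (congrFun e i) i
      rw [Matrix.mul_apply] at this
      simp [h] at this
    obtain ⟨i, j, x, y, hi, hx, hy, hx', hy', hc'⟩ := step (V := V) hd _ Cl τ hc hne
    refine ⟨(1 + colM i y) * p, p' * (1 - colM i y), k * (1 + rowM j x), (1 - rowM j x) * k',
      insert i Cl, Function.update τ i j, (U_unip (In_colM hy') (colM_sq hy)).mul hp,
      hk.mul (U_unip (In_rowM hx') (rowM_sq hx)), G.mul_mem hkG (hG j x hx hx'),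
      by rw [Finset.card_insert_of_notMem hi, hcard], ?_⟩
    simpa only [Matrix.mul_assoc] using hc'

end Pool.Agent.MP_d97ab6_al.H76
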