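import Pool.Agent.MP_d97ab6_al.H76.Ring
import Pool.Agent.MP_d97ab6_al.H76.Desc

/-! The parity obstruction from checked data. -/

namespace Pool.Agent.MP_d97ab6_al.H76

open Matrix M9

def thZ : ℕ → Z4
  | 0 => Z4.o
  | k + 1 => (thZ k).mul ⟨1, 2, 0, 0⟩

def unZ (j l : Fin 3) (x : Z4) : M9 :=
  let f : Fin 3 → Fin 3 → Z4 := fun a b => if a = j ∧ b = l then x else Z4.z
  ⟨f 0 0, f 0 1, f 0 2, f 1 0, f 1 1, f 1 2, f 2 0, f 2 1, f 2 2⟩

def nilZ (G : ℕ → M9) (u : List ℕ) : M9 := (wd G u).sub one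

def uB (d : ℕ) (X Y : M9) : Bool := inB d 0 X && inB d 0 Y && (X.mul Y).eqB M9.one

def elB (d : ℕ) (G : ℕ → M9) (j l : Fin 3) (e : ℕ) (u : List ℕ) : Bool :=
  inB d 2 ((nilZ G u).sub (unZ j l (thZ (eps d j l + e))))

def witB (π : Fin 3 → Fin 3 → ℕ) (Y : M9) : Bool := patB π Y && (Y.mul Y).zB

def descB (n : ℕ) (Y1 Y2 Y3 : M9) : Bool :=
  ((sc Y1.a).mul Y1).eqB ((Y1.mul (unZ 0 0 Z4.o)).mul Y1) &&
    exB n (((Y1.mul (unZ 0 0 Z4.o)).sub (Y2.mul (Y1.mul (unZ 0 1 Z4.o)))).sub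
      (Y3.mul (Y1.mul (unZ 0 2 Z4.o)))).det

variable {K L : Type} [Field K] [Field L] {V : DV K} {w s : K}

theorem toM_unZ (j l : Fin 3) (x : Z4) :
    toM w s (unZ j l x) = rowM j (Pi.single l (x.ev w s)) := by
  ext a b
  have : (unZ j l x).get a b = if a = j ∧ b = l then x else Z4.z := by
    fin_cases a <;> fin_cases b <;> rfl
  rw [toM_apply, this]
  simp only [rowM, Matrix.of_apply, Pi.single_apply]
  split_ifs <;> simp_all [Z4.ev_z]

theorem toM_un (j l : Fin 3) : toM w s (unZ j l Z4.o) = un j l := by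
  rw [toM_unZ, Z4.ev_o]
  ext a b
  simp only [rowM, un, Matrix.of_apply, Pi.single_apply, Matrix.single_apply]
  split_ifs <;> simp_all [eq_comm]

theorem Emb.ev_thZ (E : Emb V w s) (k : ℕ) : (thZ k).ev w s = V.th ^ k := by
  induction k with
  | zero => simp [thZ, Z4.ev_o]
  | succ k ih =>
    rw [thZ, Z4.ev_mul E.hw E.hs, ih, pow_succ, E.th]
    simp [Z4.ev]

theorem toM_nilZ (G : ℕ → M9) (u : List ℕ) : 1 + toM w s (nilZ G u) = toM w s (wd G u) := by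
  rw [nilZ, toM_sub, toM_one]
  abel

theorem coreL (E : Emb V w s) {d : ℕ} (hd : d ≤ 1) (G : ℕ → M9) (el : ℕ → ℕ → ℕ → List ℕ)
    {n : ℕ} (wit : Fin n → List ℕ) (π : Fin n → Fin 3 → Fin 3 → ℕ)
    (hU : ∀ l, ∃ X, uB d (G l) X = true)
    (hE : ∀ j l : Fin 3, j ≠ l → ∀ e : Fin 2, elB d G j l e (el j l e) = true)
    (hW : ∀ k, witB (π k) (nilZ G (wit k)) = true) (hr : ∀ k, Robust d (π k))
    (hc : ∀ τ : Fin 3 → Fin 3, Function.Injective τ → ∀ α, ¬ ∀ k, Good (π k) τ α)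
    (k1 k2 k3 : Fin n) (m : ℕ)
    (hD : descB m (nilZ G (wit k1)) (nilZ G (wit k2)) (nilZ G (wit k3)) = true)
    (P : Submonoid (Mx K)) (hP : ∀ l, toM w s (G l) ∈ P)
    (hinv : ∀ X ∈ P, ∀ X', X * X' = 1 → X' ∈ P) (φ : K →+* L) (g g' : Mx L) (hg : g * g' = 1)
    (H : ∀ Y : Mx K, 1 + Y ∈ P → Y * Y = 0 → Y ≠ 0 →
      ∃ Z, V.Par Z ∧ g * Y.map φ = Z.map φ * g) : False := by
  let S : Submonoid (Mx K) :=
    { carrier := {X | X ∈ P ∧ ∃ X', V.U d X X'}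
      one_mem' := ⟨P.one_mem, 1, DV.U_one⟩
      mul_mem' := fun ⟨h1, _, h2⟩ ⟨h3, _, h4⟩ => ⟨P.mul_mem h1 h3, _, h2.mul h4⟩ }
  have hS : ∀ u, toM w s (wd G u) ∈ S := wd_mem E.hw E.hs S G fun l =>
    ⟨hP l, _, E.U_ok (hU l).choose_spec⟩
  let Y : Fin n → Mx K := fun k => toM w s (nilZ G (wit k))
  have hY : ∀ k, (∀ i j, V.ex (Y k i j) (π k i j)) ∧ Y k * Y k = 0 ∧ 1 + Y k ∈ P := by
    intro k
    have := hW k
    simp only [witB, Bool.and_eq_true] at this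
    refine ⟨E.patB_ok this.1, ?_, ?_⟩
    · rw [← toM_mul E.hw E.hs]
      exact toM_zB this.2
    · rw [toM_nilZ]
      exact (hS _).1
  have hY0 : ∀ k, Y k ≠ 0 := fun k h => ((hY k).1 0 0).1 (by rw [h]; rfl)
  obtain ⟨Z1, -, h1⟩ := H _ (hY k1).2.2 (hY k1).2.1 (hY0 k1)
  obtain ⟨Z2, -, h2⟩ := H _ (hY k2).2.2 (hY k2).2.1 (hY0 k2)
  obtain ⟨Z3, -, h3⟩ := H _ (hY k3).2.2 (hY k3).2.1 (hY0 k3)
  simp only [descB, Bool.and_eq_true] at hD
  obtain ⟨a, a', ha, hZ⟩ := descent φ g g' hg _ _ _ _ _ _ h1 h2 h3 ((hY k1).1 0 0).1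
    (by
      have := toM_eqB (w := w) (s := s) hD.1
      simp only [toM_mul E.hw E.hs, toM_sc, toM_un, Matrix.smul_mul, Matrix.one_mul] at this
      exact this)
    (by
      have := (E.exB_ok hD.2).1
      rw [← toM_det E.hw E.hs] at this
      simp only [toM_mul E.hw E.hs, toM_sub, toM_un] at this
      exact this)
  refine core (V := V) hd S (fun γ h => h.2) (fun j l hjl e he => ?_) Y π (fun k => (hY k).1) hr hc
    a a' ha fun γ hγ γ' hγ' k => ?_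
  · refine ⟨_, hS (el j l e), ?_⟩
    have := E.inB_ok (hE j l hjl ⟨e, by omega⟩)
    rw [toM_sub, toM_unZ, E.ev_thZ] at this
    have h0 := (DV.In_zero (V := V) (d := d) 2).sub this
    rw [← toM_nilZ, elM]
    convert h0 using 1
    abel
  · have e : 1 + γ * Y k * γ' = γ * (1 + Y k) * γ' := by
      rw [mul_add, add_mul, Matrix.mul_one, hγ'.lr]
    obtain ⟨Z, hZ1, hZ2⟩ := H (γ * Y k * γ')
      (by rw [e]; exact P.mul_mem (P.mul_mem hγ.1 (hY k).2.2) (hinv γ hγ.1 γ' hγ'.lr))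
      (by
        calc γ * Y k * γ' * (γ * Y k * γ') = γ * (Y k * (γ' * γ) * Y k) * γ' := by
              simp only [Matrix.mul_assoc]
          _ = 0 := by rw [hγ'.rl, Matrix.mul_one, (hY k).2.1]; simp)
      (fun h => hY0 k (by
        calc Y k = γ' * (γ * Y k * γ') * γ := by
              rw [← Matrix.mul_assoc, ← Matrix.mul_assoc, hγ'.rl, Matrix.one_mul,
                Matrix.mul_assoc, hγ'.rl, Matrix.mul_one]
          _ = 0 := by rw [h]; simp))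
    rw [hZ _ _ hZ2]
    exact hZ1

end Pool.Agent.MP_d97ab6_al.H76
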