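import Pool.Agent.MP_d97ab6_al.H76.Ring

/-! The number field generated by square roots of `-2` and `-3`, with a prime above three and a
complex embedding. -/

namespace Pool.Agent.MP_d97ab6_al.H76

open Polynomial

instance : Fact (Nat.Prime 3) := ⟨Nat.prime_three⟩

theorem pval_neg (x : ℚ_[3]) : (-x).valuation = x.valuation := by
  by_cases h : x = 0
  · simp [h]
  have h1 := Padic.valuation_pow (-x) 2
  rw [neg_sq, Padic.valuation_pow] at h1
  omega

theorem pval_add {x y : ℚ_[3]} (hx : x ≠ 0) (h : x.valuation < y.valuation) :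
    x + y ≠ 0 ∧ (x + y).valuation = x.valuation := by
  have h0 : x + y ≠ 0 := by
    intro e
    rw [eq_neg_of_add_eq_zero_left e, pval_neg] at h
    omega
  have h1 := Padic.le_valuation_add h0
  have h2 := Padic.le_valuation_add (x := x + y) (y := -y) (by simpa using hx)
  rw [add_neg_cancel_right, pval_neg] at h2
  exact ⟨h0, by omega⟩

theorem pval_three : (3 : ℚ_[3]).valuation = 1 := by
  exact_mod_cast Padic.valuation_p (p := 3)

def PG (a b : ℚ_[3]) (n : ℤ) : Prop :=
  (a = 0 ∨ n ≤ 2 * a.valuation) ∧ (b = 0 ∨ n ≤ 2 * b.valuation + 1)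

theorem pkey {a b : ℚ_[3]} (h : ¬ (a = 0 ∧ b = 0)) :
    a * a + 3 * (b * b) ≠ 0 ∧ ∀ n, n ≤ (a * a + 3 * (b * b)).valuation ↔ PG a b n := by
  have hb : b ≠ 0 → 3 * (b * b) ≠ 0 ∧ (3 * (b * b)).valuation = 2 * b.valuation + 1 := by
    intro hb
    refine ⟨mul_ne_zero (by norm_num) (mul_ne_zero hb hb), ?_⟩
    rw [Padic.valuation_mul (by norm_num) (mul_ne_zero hb hb), Padic.valuation_mul hb hb,
      pval_three]
    ring
  have ha : a ≠ 0 → a * a ≠ 0 ∧ (a * a).valuation = 2 * a.valuation := by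
    intro ha
    refine ⟨mul_ne_zero ha ha, ?_⟩
    rw [Padic.valuation_mul ha ha]
    ring
  by_cases h1 : a = 0
  · have h2 : b ≠ 0 := fun e => h ⟨h1, e⟩
    subst h1
    rw [mul_zero, zero_add]
    exact ⟨(hb h2).1, fun n => by simp [PG, h2, (hb h2).2]⟩
  by_cases h2 : b = 0
  · subst h2
    rw [mul_zero, mul_zero, add_zero]
    exact ⟨(ha h1).1, fun n => by simp [PG, h1, (ha h1).2]⟩
  obtain ⟨a1, a2⟩ := ha h1
  obtain ⟨b1, b2⟩ := hb h2
  rcases (by omega : (a * a).valuation < (3 * (b * b)).valuation ∨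
    (3 * (b * b)).valuation < (a * a).valuation) with h3 | h3
  · obtain ⟨c1, c2⟩ := pval_add a1 h3
    refine ⟨c1, fun n => ?_⟩
    simp only [PG, h1, h2, false_or]
    omega
  · obtain ⟨c1, c2⟩ := pval_add b1 h3
    rw [add_comm] at c1 c2
    refine ⟨c1, fun n => ?_⟩
    simp only [PG, h1, h2, false_or]
    omega

theorem padd {a a' : ℚ_[3]} {n k : ℤ} (h : a = 0 ∨ n ≤ 2 * a.valuation + k)
    (h' : a' = 0 ∨ n ≤ 2 * a'.valuation + k) : a + a' = 0 ∨ n ≤ 2 * (a + a').valuation + k := by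
  rcases h with h | h
  · simpa [h] using h'
  rcases h' with h' | h'
  · simpa [h'] using Or.inr h
  by_cases e : a + a' = 0
  · exact Or.inl e
  have := Padic.le_valuation_add e
  exact Or.inr (by omega)

theorem pnorm {a : ℚ_[3]} (h : ‖a‖ < 1) : a = 0 ∨ 1 ≤ 2 * a.valuation + 0 := by
  by_cases e : a = 0
  · exact Or.inl e
  rw [Padic.norm_eq_zpow_neg_valuation e, zpow_lt_one_iff_right₀ (by norm_num)] at h
  exact Or.inr (by omega)

theorem pres {a : ℚ_[3]} (h0 : a ≠ 0) (h : a.valuation = 0) :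
    (a - 1 = 0 ∨ 1 ≤ 2 * (a - 1).valuation) ∨ (a + 1 = 0 ∨ 1 ≤ 2 * (a + 1).valuation) := by
  let z : ℤ_[3] := ⟨a, (Padic.norm_le_one_iff_val_nonneg a).2 h.ge⟩
  obtain ⟨h1, h2⟩ := PadicInt.zmodRepr_spec z
  have h3 : ‖a - (z.zmodRepr : ℚ_[3])‖ < 1 := PadicInt.mem_nonunits.1 h2
  have h4 := pnorm h3
  generalize z.zmodRepr = r at h1 h4
  interval_cases r
  · rw [Nat.cast_zero, sub_zero] at h4
    rcases h4 with h4 | h4
    · exact absurd h4 h0
    · omega
  · left
    simpa using h4
  · right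
    have h5 := padd h4 (a' := 3) (Or.inr (by rw [pval_three]; omega))
    have e : a - ((2 : ℕ) : ℚ_[3]) + 3 = a + 1 := by
      push_cast
      ring
    rw [e] at h5
    simpa using h5

theorem exists_root : ∃ s : ℚ_[3], s * s = -2 ∧ ‖s - 1‖ < 1 := by
  have h2 : ‖(2 : ℤ_[3])‖ = 1 := by
    have := (PadicInt.norm_natCast_eq_one_iff (p := 3) (n := 2)).2 (by norm_num)
    exact_mod_cast this
  have h3 : ‖(3 : ℤ_[3])‖ < 1 := by
    have := PadicInt.norm_p (p := 3)
    have e : ((3 : ℕ) : ℤ_[3]) = 3 := by norm_num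
    rw [e] at this
    rw [this]
    norm_num
  have hd : aeval (1 : ℤ_[3]) (derivative (X ^ 2 + 2 : ℤ[X])) = 2 := by
    simp
    exact map_ofNat _ 2
  obtain ⟨z, hz, hz1, -⟩ := hensels_lemma (p := 3) (F := (X ^ 2 + 2 : ℤ[X])) (a := 1) (by
    rw [hd, h2]
    have : aeval (1 : ℤ_[3]) (X ^ 2 + 2 : ℤ[X]) = 3 := by
      simp [map_ofNat]
      norm_num
    rw [this]
    simpa using h3)
  rw [hd, h2] at hz1
  refine ⟨z, ?_, hz1⟩
  have : z * z = -2 := by
    simp [map_ofNat] at hz
    linear_combination hz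
  exact_mod_cast congrArg (fun t : ℤ_[3] => (t : ℚ_[3])) this

open QuadraticAlgebra

instance : Fact (∀ r : ℚ, r ^ 2 ≠ -2 + 0 * r) := ⟨fun r h => by nlinarith [sq_nonneg r]⟩

abbrev K1 : Type := QuadraticAlgebra ℚ (-2) 0

noncomputable def psi : K1 →+* ℚ_[3] :=
  (QuadraticAlgebra.lift ⟨exists_root.choose, by
    rw [exists_root.choose_spec.1]
    simp [Algebra.smul_def]⟩ : K1 →ₐ[ℚ] ℚ_[3]).toRingHom

theorem psi_s : ‖psi ω - 1‖ < 1 := by
  have : psi ω = exists_root.choose := by simp [psi]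
  rw [this]
  exact exists_root.choose_spec.2

instance : Fact (∀ r : K1, r ^ 2 ≠ -3 + 0 * r) := ⟨fun r h => by
  have h1 := congrArg (fun t => (psi t).valuation) h
  simp only [map_pow, zero_mul, add_zero, map_neg, map_ofNat, Padic.valuation_pow, pval_neg,
    pval_three] at h1
  omega⟩

abbrev K0 : Type := QuadraticAlgebra K1 (-3) 0

noncomputable def val0 (x : K0) : ℤ := (psi x.re * psi x.re + 3 * (psi x.im * psi x.im)).valuation

theorem psi_norm (x : K0) : psi x.norm = psi x.re * psi x.re + 3 * (psi x.im * psi x.im) := by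
  simp only [norm_def, map_sub, map_add, map_mul, map_neg, map_zero, map_ofNat]
  ring

theorem val0_key {x : K0} (h : x ≠ 0) : psi x.norm ≠ 0 ∧
    ∀ n, n ≤ val0 x ↔ PG (psi x.re) (psi x.im) n := by
  rw [psi_norm]
  refine pkey fun e => h ?_
  rw [map_eq_zero, map_eq_zero] at e
  exact QuadraticAlgebra.ext e.1 e.2

theorem val0_ge {x : K0} {n : ℤ} (h : PG (psi x.re) (psi x.im) n) : x = 0 ∨ n ≤ val0 x := by
  by_cases e : x = 0
  · exact Or.inl e
  · exact Or.inr (((val0_key e).2 n).2 h)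

noncomputable def V0 : DV K0 where
  val := val0
  th := ω
  val_mul x y hx hy := by
    simp only [val0, ← psi_norm, map_mul]
    exact Padic.valuation_mul (val0_key hx).1 (val0_key hy).1
  val_add x y n hx hy hxy h1 h2 := by
    rw [(val0_key hx).2] at h1
    rw [(val0_key hy).2] at h2
    rw [(val0_key hxy).2, re_add, im_add, map_add, map_add]
    exact ⟨by simpa using padd (k := 0) (by simpa using h1.1) (by simpa using h2.1),
      padd h1.2 h2.2⟩
  th_ne h := by simpa using congrArg QuadraticAlgebra.im h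
  val_th := by simp [val0, pval_three]
  th_sq := by
    rw [omega_mul_omega_eq_mk]
    ext <;> simp
  res x hx h := by
    have h0 := ((val0_key hx).2 0).1 h.ge
    have h1 : ¬ PG (psi x.re) (psi x.im) 1 := fun e => by
      have := ((val0_key hx).2 1).2 e
      omega
    have hb : psi x.im = 0 ∨ 1 ≤ 2 * (psi x.im).valuation + 1 := h0.2.imp id (by omega)
    have ha : psi x.re ≠ 0 := fun e => h1 ⟨Or.inl e, hb⟩
    have ha' : (psi x.re).valuation = 0 := by
      have h2 := h0.1.resolve_left ha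
      by_contra e
      exact h1 ⟨Or.inr (by omega), hb⟩
    rcases pres ha ha' with h3 | h3
    · exact Or.inl (val0_ge ⟨by simpa using h3, by simpa using hb⟩)
    · exact Or.inr (val0_ge ⟨by simpa using h3, by simpa using hb⟩)
  rat q hq := by
    have h1 : (q : K0).im = 0 := rfl
    simp only [val0, h1, map_zero, mul_zero, add_zero, ← sq, Padic.valuation_pow]
    simp

noncomputable def w0 : K0 := (ω - 1) / 2

noncomputable def s0 : K0 := algebraMap K1 K0 ω

theorem two_ne : (2 : K0) ≠ 0 := by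
  have := (ex_int (V := V0) (m := 2) (by norm_num)).1
  exact_mod_cast this

theorem emb0 : Emb V0 w0 s0 where
  hw := by
    have h : (ω : K0) * ω = -3 := V0.th_sq
    have := two_ne
    simp only [w0]
    field_simp
    linear_combination h
  hs := by
    rw [s0, ← map_mul, omega_mul_omega_eq_mk]
    ext <;> simp
  th := by
    have := two_ne
    simp only [w0, V0]
    field_simp
    ring
  s1 := val0_ge ⟨by simpa [s0] using pnorm psi_s, by simp [s0]⟩

/-- The complex embedding. -/
theorem exists_phi (w s : ℂ) (hw : w * w = -1 - w) (hs : s * s = -2) :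
    ∃ φ : K0 →+* ℂ, φ w0 = w ∧ φ s0 = s := by
  let φ1 : K1 →+* ℂ := (QuadraticAlgebra.lift ⟨s, by
    rw [hs]
    simp [Algebra.smul_def]⟩ : K1 →ₐ[ℚ] ℂ).toRingHom
  have h1 : φ1 ω = s := by simp [φ1]
  let φ : K0 →+* ℂ :=
    { toFun := fun x => φ1 x.re + φ1 x.im * (1 + 2 * w)
      map_one' := by simp
      map_zero' := by simp
      map_add' := fun x y => by
        simp only [re_add, im_add, map_add]
        ring
      map_mul' := fun x y => by
        simp only [re_mul, im_mul, map_add, map_mul, map_neg, map_zero, map_ofNat]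
        linear_combination (-4 * φ1 x.im * φ1 y.im) * hw }
  have h2 : φ ω = 1 + 2 * w := by simp [φ]
  refine ⟨φ, ?_, by simp [φ, s0, h1]⟩
  rw [w0, map_div₀, map_sub, h2, map_one, map_ofNat]
  ring

end Pool.Agent.MP_d97ab6_al.H76
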