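import Pool.Agent.MP_d97ab6_al.H76.Gen
import Pool.Agent.MP_d97ab6_al.H76.Inst
import Pool.Agent.MP_d97ab6_al.H19.Spec

/-! The new lattice fixes an edge of the building and its cusps have even parity. -/

namespace Pool.Agent.MP_d97ab6_al.H76

open Matrix M9 Pool.Agent.MP_d97ab6_al.H19

def Bz : M9 :=
  ⟨⟨0, 0, 0, 0⟩, ⟨0, 0, 0, 0⟩, ⟨1, 0, 1, 0⟩, ⟨3, 0, -3, -3⟩, ⟨0, 0, 0, 0⟩, ⟨0, 0, 0, 0⟩,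
    ⟨6, 3, 0, 0⟩, ⟨3, 0, 0, 0⟩, ⟨-2, -1, 1, -1⟩⟩

def R1z : M9 :=
  ⟨⟨1, 0, 0, 0⟩, ⟨0, 0, 0, 0⟩, ⟨0, 0, 0, 0⟩, ⟨-2, 1, 1, 1⟩, ⟨0, 1, 0, 0⟩, ⟨0, 0, 0, 0⟩,
    ⟨-3, 3, 3, 3⟩, ⟨-1, 2, 1, 1⟩, ⟨1, 0, 0, 0⟩⟩

def R2z : M9 :=
  ⟨⟨3, 0, 0, 0⟩, ⟨0, -3, 0, 0⟩, ⟨-1, 1, 0, 0⟩, ⟨0, 0, 0, 0⟩, ⟨0, 3, 0, 0⟩, ⟨3, 0, 0, 0⟩,
    ⟨0, 0, 0, 0⟩, ⟨0, 0, 0, 0⟩, ⟨3, 0, 0, 0⟩⟩

def R3z : M9 :=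
  ⟨⟨1, 0, 0, 0⟩, ⟨0, 0, 0, 0⟩, ⟨0, 0, 0, 0⟩, ⟨0, 0, 0, 0⟩, ⟨1, 1, 0, 0⟩, ⟨0, 0, 0, 0⟩,
    ⟨0, 0, 0, 0⟩, ⟨0, 0, 0, 0⟩, ⟨1, 0, 0, 0⟩⟩

def r1 : M9 :=
  ⟨⟨1, 1, 0, -1⟩, ⟨-1, 0, 0, 0⟩, ⟨-1, 0, 0, 1⟩, ⟨0, 0, 0, 0⟩, ⟨1, 0, 0, 0⟩, ⟨0, 0, 0, 0⟩,
    ⟨0, 1, 0, -1⟩, ⟨-1, 0, 0, 0⟩, ⟨0, 0, 0, 1⟩⟩

def r1i : M9 :=
  ⟨⟨0, 0, 1, 0⟩, ⟨-1, -1, 0, 0⟩, ⟨-1, -1, -1, 0⟩, ⟨0, 0, 0, 0⟩, ⟨1, 0, 0, 0⟩, ⟨0, 0, 0, 0⟩,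
    ⟨-1, 0, 1, 0⟩, ⟨-1, -1, 0, 0⟩, ⟨0, -1, -1, 0⟩⟩

def r2 : M9 :=
  ⟨⟨1, 0, 0, 0⟩, ⟨0, 0, 0, 0⟩, ⟨0, 0, 0, 0⟩, ⟨0, 2, 1, 0⟩, ⟨0, 1, 0, 0⟩, ⟨0, -1, -1, 0⟩,
    ⟨0, 0, 0, 0⟩, ⟨0, 0, 0, 0⟩, ⟨1, 0, 0, 0⟩⟩

def r2i : M9 :=
  ⟨⟨1, 0, 0, 0⟩, ⟨0, 0, 0, 0⟩, ⟨0, 0, 0, 0⟩, ⟨-2, 0, 1, 1⟩, ⟨-1, -1, 0, 0⟩, ⟨1, 0, -1, -1⟩,
    ⟨0, 0, 0, 0⟩, ⟨0, 0, 0, 0⟩, ⟨1, 0, 0, 0⟩⟩

def r3 : M9 :=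
  ⟨⟨1, 0, 0, 0⟩, ⟨0, 0, 0, 0⟩, ⟨0, 0, 0, 0⟩, ⟨0, 0, 0, 0⟩, ⟨1, 0, 0, 0⟩, ⟨0, 0, 0, 0⟩,
    ⟨-1, -1, 0, -1⟩, ⟨-1, -1, 0, -1⟩, ⟨1, 1, 0, 0⟩⟩

def r3i : M9 :=
  ⟨⟨1, 0, 0, 0⟩, ⟨0, 0, 0, 0⟩, ⟨0, 0, 0, 0⟩, ⟨0, 0, 0, 0⟩, ⟨1, 0, 0, 0⟩, ⟨0, 0, 0, 0⟩,
    ⟨1, 0, 1, 1⟩, ⟨1, 0, 1, 1⟩, ⟨0, -1, 0, 0⟩⟩

def A1z : M9 :=
  ⟨⟨0, 0, 0, 0⟩, ⟨0, 0, 0, 0⟩, ⟨-5, -1, -1, -2⟩, ⟨0, 0, 0, 0⟩, ⟨9, 0, 0, 0⟩, ⟨0, 0, 0, 0⟩,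
    ⟨-27, -9, 0, 9⟩, ⟨0, 0, 0, 0⟩, ⟨0, 0, 0, 0⟩⟩

def A2z : M9 :=
  ⟨⟨5, 1, -2, -4⟩, ⟨1, -2, -1, -1⟩, ⟨-1, 0, 1, 0⟩, ⟨-6, 3, 6, 6⟩, ⟨0, 6, 3, 0⟩, ⟨-1, -2, -2, -1⟩,
    ⟨-3, 12, 12, 6⟩, ⟨3, 9, 6, 0⟩, ⟨-2, -1, -4, -2⟩⟩

def Ez : M9 :=
  ⟨⟨0, 0, 0, 0⟩, ⟨0, 0, 0, 0⟩, ⟨1, 2, 0, 0⟩, ⟨0, 0, 0, 0⟩, ⟨0, 0, 0, 0⟩, ⟨0, 0, 0, 0⟩,
    ⟨0, 0, 0, 0⟩, ⟨0, 0, 0, 0⟩, ⟨0, 0, 0, 0⟩⟩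

def n0 : M9 :=
  ⟨⟨0, 0, 0, 0⟩, ⟨0, 0, 0, 0⟩, ⟨0, 0, 0, 0⟩, ⟨1, 0, 0, -1⟩, ⟨0, 0, 0, 0⟩, ⟨0, 0, 0, 0⟩,
    ⟨0, 1, 0, -1⟩, ⟨0, 0, 0, 0⟩, ⟨0, 0, 0, 0⟩⟩

def n1 : M9 :=
  ⟨⟨0, 0, 0, 0⟩, ⟨-1, 0, 1, 1⟩, ⟨0, 0, 0, 0⟩, ⟨0, 0, 0, 0⟩, ⟨0, 0, 0, 0⟩, ⟨0, 0, 0, 0⟩,
    ⟨0, 0, 0, 0⟩, ⟨-2, -1, 0, 0⟩, ⟨0, 0, 0, 0⟩⟩

def n2 : M9 :=
  ⟨⟨-5, -7, -4, 1⟩, ⟨0, 0, 0, 0⟩, ⟨1, 9, 7, 3⟩, ⟨8, 9, 4, -3⟩, ⟨0, 0, 0, 0⟩, ⟨-4, -13, -9, -2⟩,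
    ⟨-5, -3, -1, 3⟩, ⟨0, 0, 0, 0⟩, ⟨5, 7, 4, -1⟩⟩


def nz : Fin 3 → M9 := ![n0, n1, n2]

def Az : Fin 3 → M9 := ![one, A1z, A2z]

noncomputable def tc (X : M9) : M3 := toM om sr X

theorem tc_mul (X Y : M9) : tc (X.mul Y) = tc X * tc Y := toM_mul om_sq sr_sq X Y

theorem tc_R1 : tc R1z = R1 := by
  ext i j
  fin_cases i <;> fin_cases j <;> simp [tc, toM, M9.get, R1z, R1, Z4.ev]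
  ring

theorem tc_R2 : tc R2z = (3 : ℂ) • R2 := by
  ext i j
  fin_cases i <;> fin_cases j <;> simp [tc, toM, M9.get, R2z, R2, Z4.ev]
  ring

theorem tc_R3 : tc R3z = R3 := by
  ext i j
  fin_cases i <;> fin_cases j <;> simp [tc, toM, M9.get, R3z, R3, Z4.ev]

theorem tc_E : tc Ez = !![0, 0, 1 + 2 * om; 0, 0, 0; 0, 0, 0] := by
  ext i j
  fin_cases i <;> fin_cases j <;> simp [tc, toM, M9.get, Ez, Z4.ev]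

theorem tc_A (i : Fin 3) : ∃ c : ℂ, c ≠ 0 ∧ tc (Az i) = c • AM i := by
  fin_cases i
  · exact ⟨1, one_ne_zero, by simpa [tc, Az, AM] using toM_one om sr⟩
  · refine ⟨9, by norm_num, ?_⟩
    ext i j
    fin_cases i <;> fin_cases j <;> simp [tc, toM, M9.get, Az, A1z, AM, Z4.ev] <;> ring
  · refine ⟨3, by norm_num, ?_⟩
    ext i j
    fin_cases i <;> fin_cases j <;> simp [tc, toM, M9.get, Az, A2z, AM, Z4.ev] <;> ring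

theorem tc_three (X : M9) : tc ((sc ⟨3, 0, 0, 0⟩).mul X) = (3 : ℂ) • tc X := by
  rw [tc_mul, tc, toM_sc, Matrix.smul_mul, Matrix.one_mul]
  simp [Z4.ev]

theorem lamN (i : Fin 3) : tc Bz * Nc i = (3 : ℂ) • (tc (nz i) * tc Bz) := by
  have h : ∀ i, ((Bz.mul (Az i)).mul Ez).eqB
      ((sc ⟨3, 0, 0, 0⟩).mul (((nz i).mul Bz).mul (Az i))) = true := by decide +kernel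
  have h1 : tc _ = tc _ := toM_eqB (h i)
  obtain ⟨c, hc, e⟩ := tc_A i
  rw [tc_three] at h1
  simp only [tc_mul, e, tc_E, Matrix.mul_smul, Matrix.smul_mul] at h1
  rw [smul_comm (3 : ℂ)] at h1
  have h2 := smul_right_injective _ hc h1
  have h3 : AM i * ((A i)⁻¹).1 = 1 := (A i).2.right_inv
  calc tc Bz * Nc i = tc Bz * AM i * !![0, 0, 1 + 2 * om; 0, 0, 0; 0, 0, 0] * ((A i)⁻¹).1 := by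
        simp only [Nc, Matrix.mul_assoc]
        rfl
    _ = _ := by rw [h2, Matrix.smul_mul, Matrix.mul_assoc, h3, Matrix.mul_one]

theorem par_nz (i : Fin 3) : V0.Par (toM w0 s0 (nz i)) := by
  have h : ∀ i, inB 1 0 (nz i) = true := by decide +kernel
  refine ⟨0, by simp, emb0.inB_ok (h i), fun h => ?_⟩
  fin_cases i
  · exact (emb0.exB_ok (n := 1) (x := n0.d) (by decide +kernel)).not_ge (h 1 0)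
  · exact (emb0.exB_ok (n := 0) (x := n1.b) (by decide +kernel)).not_ge (h 0 1)
  · exact (emb0.exB_ok (n := 0) (x := n2.c) (by decide +kernel)).not_ge (h 0 2)

variable {φ : K0 →+* ℂ}

theorem map_tc (hw : φ w0 = om) (hs : φ s0 = sr) (X : M9) : (toM w0 s0 X).map φ = tc X := by
  rw [toM_map, hw, hs, tc]

theorem det_B (hw : φ w0 = om) (hs : φ s0 = sr) : (tc Bz).det ≠ 0 := by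
  rw [tc, toM_det om_sq sr_sq, ← hw, ← hs, ← Z4.ev_map, map_ne_zero]
  exact (emb0.exB_ok (n := 4) (by decide +kernel)).1

theorem lamU (hw : φ w0 = om) (hs : φ s0 = sr) (g : U21) (hg : g ∈ L0) :
    ∃ a a', V0.U 1 a a' ∧ tc Bz * g.1 = a.map φ * tc Bz ∧ tc Bz * (g⁻¹).1 = a'.map φ * tc Bz := by
  have inv : ∀ (g : U21) (a a' : Mx K0), V0.U 1 a a' → tc Bz * g.1 = a.map φ * tc Bz →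
      tc Bz * (g⁻¹).1 = a'.map φ * tc Bz := by
    intro g a a' h e
    have h3 : g.1 * (g⁻¹).1 = 1 := g.2.right_inv
    calc tc Bz * (g⁻¹).1 = (a' * a).map φ * tc Bz * (g⁻¹).1 := by rw [h.rl]; simp
      _ = a'.map φ * (tc Bz * g.1) * (g⁻¹).1 := by
          rw [e, Matrix.map_mul]
          simp only [Matrix.mul_assoc]
      _ = _ := by rw [Matrix.mul_assoc, Matrix.mul_assoc, h3, Matrix.mul_one]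
  suffices h : ∃ a a', V0.U 1 a a' ∧ tc Bz * g.1 = a.map φ * tc Bz by
    obtain ⟨a, a', h, e⟩ := h
    exact ⟨a, a', h, e, inv g a a' h e⟩
  induction hg using Subgroup.closure_induction with
  | mem x hx =>
    rcases hx with e | e | e | e
    · refine ⟨_, _, emb0.U_ok (X := r1) (Y := r1i) (by decide +kernel), ?_⟩
      rw [e, map_tc hw hs, ← tc_R1, ← tc_mul, ← tc_mul]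
      exact toM_eqB (by decide +kernel)
    · refine ⟨_, _, emb0.U_ok (X := r2) (Y := r2i) (by decide +kernel), ?_⟩
      refine smul_right_injective _ (by norm_num : (3 : ℂ) ≠ 0) ?_
      simp only
      rw [e, map_tc hw hs, ← Matrix.mul_smul, ← tc_R2, ← tc_mul, ← tc_mul, ← tc_three]
      exact toM_eqB (by decide +kernel)
    · refine ⟨_, _, emb0.U_ok (X := r3) (Y := r3i) (by decide +kernel), ?_⟩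
      rw [e, map_tc hw hs, ← tc_R3, ← tc_mul, ← tc_mul]
      exact toM_eqB (by decide +kernel)
    · refine ⟨_, _, emb0.U_ok (X := sc ⟨1, 1, 0, 0⟩) (Y := sc ⟨0, -1, 0, 0⟩) (by decide +kernel), ?_⟩
      rw [e, map_tc hw hs, tc, tc, toM_sc]
      simp [Z4.ev, ze]
  | one => exact ⟨1, 1, DV.U_one, by simp⟩
  | mul x y _ _ hx hy =>
    obtain ⟨a, a', h, e⟩ := hx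
    obtain ⟨b, b', k, f⟩ := hy
    refine ⟨_, _, h.mul k, ?_⟩
    rw [U21.val_mul, ← Matrix.mul_assoc, e, Matrix.mul_assoc, f, Matrix.map_mul, Matrix.mul_assoc]
  | inv x _ hx =>
    obtain ⟨a, a', h, e⟩ := hx
    exact ⟨a', a, h.symm, inv x a a' h e⟩

end Pool.Agent.MP_d97ab6_al.H76
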