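import Pool.Agent.MP_d97ab6_al.H76.Core

/-! Exact arithmetic in the ring generated by a third root of unity and a square root of `-2`,
with checkers for valuations. -/

namespace Pool.Agent.MP_d97ab6_al.H76

open Matrix

structure Z4 where
  a : ℤ
  b : ℤ
  c : ℤ
  d : ℤ

namespace Z4

def add (x y : Z4) : Z4 :=
  match x, y with
  | ⟨a, b, c, d⟩, ⟨e, f, g, h⟩ => ⟨Int.add a e, Int.add b f, Int.add c g, Int.add d h⟩

def sub (x y : Z4) : Z4 := ⟨x.a - y.a, x.b - y.b, x.c - y.c, x.d - y.d⟩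

def mul (x y : Z4) : Z4 :=
  match x, y with
  | ⟨a, b, c, d⟩, ⟨e, f, g, h⟩ =>
    ⟨Int.sub (Int.sub (Int.mul a e) (Int.mul b f)) (Int.mul 2 (Int.sub (Int.mul c g) (Int.mul d h))),
      Int.sub (Int.add (Int.mul a f) (Int.mul b (Int.sub e f)))
        (Int.mul 2 (Int.add (Int.mul c h) (Int.mul d (Int.sub g h)))),
      Int.add (Int.sub (Int.mul a g) (Int.mul b h)) (Int.sub (Int.mul c e) (Int.mul d f)),
      Int.add (Int.add (Int.mul a h) (Int.mul b (Int.sub g h)))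
        (Int.add (Int.mul c f) (Int.mul d (Int.sub e f)))⟩

theorem sub_def (a b : ℤ) : Int.sub a b = a - b := rfl

def dot (x1 y1 x2 y2 x3 y3 : Z4) : Z4 := ((x1.mul y1).add (x2.mul y2)).add (x3.mul y3)

def zB (x : Z4) : Bool := x.a == 0 && x.b == 0 && x.c == 0 && x.d == 0

def z : Z4 := ⟨0, 0, 0, 0⟩

def o : Z4 := ⟨1, 0, 0, 0⟩

variable {R : Type} [CommRing R] (w s : R)

def ev (x : Z4) : R := x.a + x.b * w + x.c * s + x.d * (w * s)

theorem ev_add (x y : Z4) : ev w s (x.add y) = ev w s x + ev w s y := by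
  cases x
  cases y
  simp only [ev, add, Int.add_def]
  push_cast
  ring

theorem ev_sub (x y : Z4) : ev w s (x.sub y) = ev w s x - ev w s y := by
  simp only [ev, sub]
  push_cast
  ring

theorem ev_z : ev w s z = 0 := by simp [ev, z]

theorem ev_o : ev w s o = 1 := by simp [ev, o]

variable {w s}

theorem ev_zB {x : Z4} (h : x.zB = true) : ev w s x = 0 := by
  simp only [zB, Bool.and_eq_true, beq_iff_eq] at h
  simp [ev, h.1.1.1, h.1.1.2, h.1.2, h.2]

theorem ev_mul (hw : w * w = -1 - w) (hs : s * s = -2) (x y : Z4) :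
    ev w s (x.mul y) = ev w s x * ev w s y := by
  obtain ⟨a, b, c, d⟩ := x
  obtain ⟨e, f, g, h⟩ := y
  simp only [ev, mul, Int.add_def, Int.mul_def, sub_def]
  push_cast
  linear_combination (-(b * f : R) - (b * h + d * f) * s - d * h * (s * s)) * hw
    - ((c * g : R) + (c * h + d * g) * w - d * h * (1 + w)) * hs

theorem ev_dot (hw : w * w = -1 - w) (hs : s * s = -2) (x1 y1 x2 y2 x3 y3 : Z4) :
    ev w s (dot x1 y1 x2 y2 x3 y3) =
      ev w s x1 * ev w s y1 + ev w s x2 * ev w s y2 + ev w s x3 * ev w s y3 := by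
  simp only [dot, ev_add, ev_mul hw hs]

theorem ev_map {R' : Type} [CommRing R'] (φ : R →+* R') (x : Z4) :
    φ (ev w s x) = ev (φ w) (φ s) x := by
  simp [ev]

end Z4

structure M9 where
  a : Z4
  b : Z4
  c : Z4
  d : Z4
  e : Z4
  f : Z4
  g : Z4
  h : Z4
  i : Z4

namespace M9

open Z4

def get (X : M9) : Fin 3 → Fin 3 → Z4 := ![![X.a, X.b, X.c], ![X.d, X.e, X.f], ![X.g, X.h, X.i]]

def mul (X Y : M9) : M9 :=
  match X, Y with
  | ⟨a, b, c, d, e, f, g, h, i⟩, ⟨a', b', c', d', e', f', g', h', i'⟩ =>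
    ⟨dot a a' b d' c g', dot a b' b e' c h', dot a c' b f' c i',
      dot d a' e d' f g', dot d b' e e' f h', dot d c' e f' f i',
      dot g a' h d' i g', dot g b' h e' i h', dot g c' h f' i i'⟩

def sub (X Y : M9) : M9 :=
  ⟨X.a.sub Y.a, X.b.sub Y.b, X.c.sub Y.c, X.d.sub Y.d, X.e.sub Y.e, X.f.sub Y.f, X.g.sub Y.g,
    X.h.sub Y.h, X.i.sub Y.i⟩

def sc (x : Z4) : M9 := ⟨x, z, z, z, x, z, z, z, x⟩

def one : M9 := sc o

def zB (X : M9) : Bool :=
  X.a.zB && X.b.zB && X.c.zB && X.d.zB && X.e.zB && X.f.zB && X.g.zB && X.h.zB && X.i.zB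

def eqB (X Y : M9) : Bool := (X.sub Y).zB

def det (X : M9) : Z4 :=
  dot X.a ((X.e.mul X.i).sub (X.f.mul X.h)) X.b ((X.f.mul X.g).sub (X.d.mul X.i))
    X.c ((X.d.mul X.h).sub (X.e.mul X.g))

/-- The value of a word. -/
def wd (G : ℕ → M9) (u : List ℕ) : M9 := List.rec one (fun l _ r => (G l).mul r) u

variable {R : Type} [CommRing R] (w s : R)

def toM (X : M9) : Matrix (Fin 3) (Fin 3) R := Matrix.of fun i j => ev w s (X.get i j)

theorem toM_apply (X : M9) (i j : Fin 3) : toM w s X i j = ev w s (X.get i j) := rfl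

theorem toM_sub (X Y : M9) : toM w s (X.sub Y) = toM w s X - toM w s Y := by
  ext i j
  fin_cases i <;> fin_cases j <;> simp [toM, get, sub, ev_sub]

theorem toM_sc (x : Z4) : toM w s (sc x) = ev w s x • (1 : Matrix (Fin 3) (Fin 3) R) := by
  ext i j
  fin_cases i <;> fin_cases j <;> simp [toM, get, sc, ev_z]

theorem toM_one : toM w s one = 1 := by rw [one, toM_sc, ev_o, one_smul]

variable {w s}

theorem toM_zB {X : M9} (h : X.zB = true) : toM w s X = 0 := by
  simp only [zB, Bool.and_eq_true] at h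
  obtain ⟨⟨⟨⟨⟨⟨⟨⟨h1, h2⟩, h3⟩, h4⟩, h5⟩, h6⟩, h7⟩, h8⟩, h9⟩ := h
  ext i j
  fin_cases i <;> fin_cases j <;> simp [toM, get] <;> apply ev_zB <;> assumption

theorem toM_eqB {X Y : M9} (h : X.eqB Y = true) : toM w s X = toM w s Y := by
  have := toM_zB (w := w) (s := s) h
  rwa [toM_sub, sub_eq_zero] at this

theorem toM_mul (hw : w * w = -1 - w) (hs : s * s = -2) (X Y : M9) :
    toM w s (X.mul Y) = toM w s X * toM w s Y := by
  cases X
  cases Y
  ext i j
  fin_cases i <;> fin_cases j <;>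
    simp [toM, get, mul, ev_dot hw hs, Matrix.mul_apply, Fin.sum_univ_three]

theorem toM_det (hw : w * w = -1 - w) (hs : s * s = -2) (X : M9) :
    (toM w s X).det = ev w s X.det := by
  rw [Matrix.det_fin_three]
  simp [toM, get, det, ev_dot hw hs, ev_sub, ev_mul hw hs]
  ring

theorem toM_map {R' : Type} [CommRing R'] (φ : R →+* R') (X : M9) :
    (toM w s X).map φ = toM (φ w) (φ s) X := by
  ext i j
  simp [toM, ev_map]

theorem wd_mem (hw : w * w = -1 - w) (hs : s * s = -2) (S : Submonoid (Matrix (Fin 3) (Fin 3) R))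
    (G : ℕ → M9) (hG : ∀ l, toM w s (G l) ∈ S) (u : List ℕ) : toM w s (wd G u) ∈ S := by
  induction u with
  | nil => exact (toM_one w s).symm ▸ S.one_mem
  | cons l t ih => exact (toM_mul hw hs (G l) (wd G t)).symm ▸ S.mul_mem (hG l) ih

end M9

def geZ : ℕ → ℤ → ℤ → Bool
  | 0, _, _ => true
  | n + 1, A, B => (A + B) % 3 == 0 && geZ n ((2 * B - A) / 3) ((B - 2 * A) / 3)

def exZ : ℕ → ℤ → ℤ → Bool
  | 0, A, B => (A + B) % 3 != 0
  | n + 1, A, B => (A + B) % 3 == 0 && exZ n ((2 * B - A) / 3) ((B - 2 * A) / 3)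

def geB (n : ℕ) (x : Z4) : Bool := decide (n ≤ 10) && geZ n (x.a + 22 * x.c) (x.b + 22 * x.d)

def exB (n : ℕ) (x : Z4) : Bool := decide (n ≤ 9) && exZ n (x.a + 22 * x.c) (x.b + 22 * x.d)

def inB (d n : ℕ) (X : M9) : Bool :=
  geB n X.a && geB n X.b && geB n X.c && geB (n + d) X.d && geB n X.e && geB n X.f &&
    geB (n + d) X.g && geB n X.h && geB n X.i

def patB (π : Fin 3 → Fin 3 → ℕ) (X : M9) : Bool :=
  exB (π 0 0) X.a && exB (π 0 1) X.b && exB (π 0 2) X.c && exB (π 1 0) X.d && exB (π 1 1) X.e &&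
    exB (π 1 2) X.f && exB (π 2 0) X.g && exB (π 2 1) X.h && exB (π 2 2) X.i

variable {K : Type} [Field K]

/-- The chosen prime above three. -/
structure Emb (V : DV K) (w s : K) : Prop where
  hw : w * w = -1 - w
  hs : s * s = -2
  th : V.th = 1 + 2 * w
  s1 : V.ge (s - 1) 1

variable {V : DV K} {w s : K}

theorem ex_int {m : ℤ} (h : m % 3 ≠ 0) : V.ex (m : K) 0 := by
  have h3 : ∀ k : ℤ, V.ge (3 * (k : K)) (0 + 1) := fun k =>
    (DV.ex_three.ge.mul (DV.ge_int k)).mono (by omega)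
  rcases (by omega : m = 1 + 3 * (m / 3) ∨ m = -1 + 3 * (m / 3 + 1)) with e | e
  · rw [e]
    push_cast
    exact DV.ex_one.add_ge (h3 _)
  · rw [e]
    have := (DV.ex_neg_one (V := V)).add_ge (h3 (m / 3 + 1))
    push_cast at this ⊢
    exact this

namespace Emb

theorem ex_w (E : Emb V w s) : V.ex w 0 := by
  have h3 : w * w * w = 1 := by linear_combination (w - 1) * E.hw
  have h0 : w ≠ 0 := by
    rintro rfl
    simp at h3
  have h1 := ((DV.ex_self (V := V) h0).mul (DV.ex_self h0)).mul (DV.ex_self h0)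
  rw [h3] at h1
  have h2 := h1.2
  rw [DV.val_one] at h2
  exact ⟨h0, by omega⟩

theorem s22 (E : Emb V w s) : V.ge (s - 22) 10 := by
  have h1 : V.ex (s + 22) 0 := by
    have := (ex_int (V := V) (m := 23) (by norm_num)).add_ge (y := s - 1) (by simpa using E.s1)
    have e : ((23 : ℤ) : K) + (s - 1) = s + 22 := by push_cast; ring
    rwa [e] at this
  have h3 := DV.ex_three (V := V)
  have h2 := ((((h3.mul h3).mul h3).mul h3).mul h3).ge.mul (DV.ge_int (V := V) (-2))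
  have h4 := h2.mul h1.inv.ge
  have e : (3 : K) * 3 * 3 * 3 * 3 * ((-2 : ℤ) : K) * (s + 22)⁻¹ = s - 22 := by
    have := h1.1
    field_simp
    push_cast
    linear_combination (-1 : K) * E.hs
  rw [e] at h4
  exact h4.mono (by omega)

theorem div_th (E : Emb V w s) {A B : ℤ} (h : (A + B) % 3 = 0) :
    (A : K) + B * w = V.th * ((((2 * B - A) / 3 : ℤ) : K) + (((B - 2 * A) / 3 : ℤ) : K) * w) := by
  obtain ⟨k, rfl⟩ : ∃ k, B = 3 * k - A := ⟨(A + B) / 3, by omega⟩
  rw [show (2 * (3 * k - A) - A) / 3 = 2 * k - A by omega,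
    show (3 * k - A - 2 * A) / 3 = k - A by omega, E.th]
  push_cast
  linear_combination (-2 * (k - A : K)) * E.hw

theorem geZ_ok (E : Emb V w s) (n : ℕ) : ∀ A B : ℤ, geZ n A B = true → V.ge ((A : K) + B * w) n := by
  induction n with
  | zero =>
    intro A B _
    exact (DV.ge_int A).add (by simpa using (DV.ge_int B).mul E.ex_w.ge)
  | succ n ih =>
    intro A B h
    simp only [geZ, Bool.and_eq_true, beq_iff_eq] at h
    rw [E.div_th h.1]
    exact (DV.ex_th.ge.mul (ih _ _ h.2)).mono (by push_cast; omega)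

theorem exZ_ok (E : Emb V w s) (n : ℕ) : ∀ A B : ℤ, exZ n A B = true → V.ex ((A : K) + B * w) n := by
  induction n with
  | zero =>
    intro A B h
    simp only [exZ, bne_iff_ne] at h
    have h1 := ((DV.ge_int (V := V) (-B)).mul DV.ex_th.ge).mul (E.ex_w.mul E.ex_w).ge
    have h2 := (ex_int (V := V) h).add_ge (h1.mono (by omega))
    have e : ((A + B : ℤ) : K) + ((-B : ℤ) : K) * V.th * (w * w) = A + B * w := by
      rw [E.th]
      push_cast
      linear_combination (-(B : K) * (2 * w - 1)) * E.hw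
    rwa [e] at h2
  | succ n ih =>
    intro A B h
    simp only [exZ, Bool.and_eq_true, beq_iff_eq] at h
    rw [E.div_th h.1]
    have := DV.ex_th.mul (ih _ _ h.2)
    rw [add_comm (1 : ℤ)] at this
    exact_mod_cast this

theorem split (E : Emb V w s) (x : Z4) : ∃ y, V.ge y 10 ∧
    x.ev w s = ((x.a + 22 * x.c : ℤ) : K) + ((x.b + 22 * x.d : ℤ) : K) * w + y := by
  refine ⟨(s - 22) * (x.c + x.d * w), ?_, ?_⟩
  · simpa using E.s22.mul (E.geZ_ok 0 x.c x.d rfl)
  · simp only [Z4.ev]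
    push_cast
    ring

theorem geB_ok (E : Emb V w s) {n : ℕ} {x : Z4} (h : geB n x = true) : V.ge (x.ev w s) n := by
  simp only [geB, Bool.and_eq_true, decide_eq_true_eq] at h
  obtain ⟨y, hy, e⟩ := E.split x
  rw [e]
  exact (E.geZ_ok n _ _ h.2).add (hy.mono (by omega))

theorem exB_ok (E : Emb V w s) {n : ℕ} {x : Z4} (h : exB n x = true) : V.ex (x.ev w s) n := by
  simp only [exB, Bool.and_eq_true, decide_eq_true_eq] at h
  obtain ⟨y, hy, e⟩ := E.split x
  rw [e]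
  exact (E.exZ_ok n _ _ h.2).add_ge (hy.mono (by omega))

theorem inB_ok (E : Emb V w s) {d n : ℕ} {X : M9} (h : inB d n X = true) :
    V.In d (X.toM w s) n := by
  simp only [inB, Bool.and_eq_true] at h
  obtain ⟨⟨⟨⟨⟨⟨⟨⟨h1, h2⟩, h3⟩, h4⟩, h5⟩, h6⟩, h7⟩, h8⟩, h9⟩ := h
  intro i j
  fin_cases i <;> fin_cases j
  · simpa [M9.toM, M9.get, eps] using E.geB_ok h1
  · simpa [M9.toM, M9.get, eps] using E.geB_ok h2
  · simpa [M9.toM, M9.get, eps] using E.geB_ok h3
  · simpa [M9.toM, M9.get, eps] using E.geB_ok h4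
  · simpa [M9.toM, M9.get, eps] using E.geB_ok h5
  · simpa [M9.toM, M9.get, eps] using E.geB_ok h6
  · simpa [M9.toM, M9.get, eps] using E.geB_ok h7
  · simpa [M9.toM, M9.get, eps] using E.geB_ok h8
  · simpa [M9.toM, M9.get, eps] using E.geB_ok h9

theorem patB_ok (E : Emb V w s) {π : Fin 3 → Fin 3 → ℕ} {X : M9} (h : patB π X = true)
    (i j : Fin 3) : V.ex (X.toM w s i j) (π i j) := by
  simp only [patB, Bool.and_eq_true] at h
  obtain ⟨⟨⟨⟨⟨⟨⟨⟨h1, h2⟩, h3⟩, h4⟩, h5⟩, h6⟩, h7⟩, h8⟩, h9⟩ := h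
  fin_cases i <;> fin_cases j
  exacts [E.exB_ok h1, E.exB_ok h2, E.exB_ok h3, E.exB_ok h4, E.exB_ok h5, E.exB_ok h6,
    E.exB_ok h7, E.exB_ok h8, E.exB_ok h9]

theorem U_ok (E : Emb V w s) {d : ℕ} {X Y : M9}
    (h : (inB d 0 X && inB d 0 Y && (X.mul Y).eqB M9.one) = true) :
    V.U d (X.toM w s) (Y.toM w s) := by
  simp only [Bool.and_eq_true] at h
  have h3 := M9.toM_eqB (w := w) (s := s) h.2
  rw [M9.toM_mul E.hw E.hs, M9.toM_one] at h3
  exact ⟨E.inB_ok h.1.1, E.inB_ok h.1.2, h3, mul_eq_one_comm.1 h3⟩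

end Emb

end Pool.Agent.MP_d97ab6_al.H76
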