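import Pool.Agent.MP_d97ab6_al.H76.LamSide
import Pool.Agent.MP_d97ab6_al.H76.Data
import Pool.Agent.MP_d97ab6_al.H76.Data6

/-! No conjugate of the new lattice is commensurable with one of the two sporadic groups. -/

namespace Pool.Agent.MP_d97ab6_al.H76

open Matrix M9 Pool.Agent.MP_d97ab6_al.H19

abbrev SL3 := Matrix.SpecialLinearGroup (Fin 3) ℂ

variable {φ : K0 →+* ℂ}

/-- The matrices over the number field that represent elements of `S` in the frame `F`. -/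
def rep (φ : K0 →+* ℂ) (S : Subgroup SL3) (F : M3) : Submonoid (Mx K0) where
  carrier := {X | ∃ σ ∈ S, ∃ c : ℂ, c ≠ 0 ∧ σ.1 * F = c • (F * X.map φ)}
  one_mem' := ⟨1, S.one_mem, 1, one_ne_zero, by simp⟩
  mul_mem' := by
    rintro X Y ⟨σ, hσ, c, hc, e⟩ ⟨τ, hτ, c', hc', e'⟩
    refine ⟨σ * τ, S.mul_mem hσ hτ, c' * c, mul_ne_zero hc' hc, ?_⟩
    rw [Matrix.SpecialLinearGroup.coe_mul, Matrix.mul_assoc, e', Matrix.mul_smul,
      ← Matrix.mul_assoc, e, Matrix.smul_mul, smul_smul, Matrix.map_mul, Matrix.mul_assoc]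

theorem sl_inv (σ : SL3) : (σ⁻¹).1 * σ.1 = 1 := by
  rw [← Matrix.SpecialLinearGroup.coe_mul, inv_mul_cancel]
  rfl

theorem rep_inv (S : Subgroup SL3) (F : M3) (X : Mx K0) (hX : X ∈ rep φ S F) (X' : Mx K0)
    (h : X * X' = 1) : X' ∈ rep φ S F := by
  obtain ⟨σ, hσ, c, hc, e⟩ := hX
  refine ⟨σ⁻¹, S.inv_mem hσ, c⁻¹, inv_ne_zero hc, ?_⟩
  calc (σ⁻¹).1 * F = c⁻¹ • ((σ⁻¹).1 * (c • (F * X.map φ)) * X'.map φ) := by
        rw [Matrix.mul_smul, Matrix.smul_mul, smul_smul, inv_mul_cancel₀ hc, one_smul,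
          Matrix.mul_assoc, Matrix.mul_assoc, ← Matrix.map_mul, h]
        simp
    _ = _ := by rw [← e, ← Matrix.mul_assoc, sl_inv, Matrix.one_mul]

theorem rep_sc (S : Subgroup SL3) (F : M3) (hw : φ w0 = om) (hs : φ s0 = sr) :
    toM w0 s0 (sc ⟨1, 1, 0, 0⟩) ∈ rep φ S F := by
  refine ⟨1, S.one_mem, -om, ?_, ?_⟩
  · intro h
    have := om_sq
    rw [neg_eq_zero.1 h] at this
    simp at this
  · rw [map_tc hw hs, tc, toM_sc, Matrix.mul_smul, smul_smul]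
    have : -om * Z4.ev om sr ⟨1, 1, 0, 0⟩ = 1 := by
      simp only [Z4.ev]
      push_cast
      linear_combination (-1 : ℂ) * om_sq
    rw [this]
    simp

theorem unip_pow {N : M3} (h : N * N = 0) (m : ℕ) : (1 + N) ^ m = 1 + (m : ℂ) • N := by
  induction m with
  | zero => simp
  | succ m ih =>
    rw [pow_succ, ih, add_mul, mul_add, mul_add, Matrix.smul_mul, Matrix.smul_mul, h]
    push_cast
    simp only [Matrix.mul_one, Matrix.one_mul, add_smul, one_smul, smul_zero]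
    abel

theorem bridge (hw : φ w0 = om) (hs : φ s0 = sr) (hc : CuspClass) (S : Subgroup SL3) (g : SL3)
    (hg : Subgroup.Commensurable
      (((lift L0).map SU21.subtype).map (MulAut.conj g).toMonoidHom) S)
    (F F' : M3) (hF : F * F' = 1) : ∃ G G' : M3, G * G' = 1 ∧
      ∀ Y : Mx K0, 1 + Y ∈ rep φ S F → Y * Y = 0 → Y ≠ 0 →
        ∃ Z, V0.Par Z ∧ G * Y.map φ = Z.map φ * G := by
  have hF' : F' * F = 1 := mul_eq_one_comm.1 hF
  have hB : tc Bz * (tc Bz)⁻¹ = 1 := Matrix.mul_nonsing_inv _ (Ne.isUnit (det_B hw hs))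
  have hgi : (g⁻¹).1 * g.1 = 1 := sl_inv g
  have hgi' : g.1 * (g⁻¹).1 = 1 := mul_eq_one_comm.1 hgi
  have hG : tc Bz * (g⁻¹).1 * F * (F' * g.1 * (tc Bz)⁻¹) = 1 := by
    calc _ = tc Bz * ((g⁻¹).1 * (F * F') * g.1) * (tc Bz)⁻¹ := by simp only [Matrix.mul_assoc]
      _ = 1 := by rw [hF, Matrix.mul_one, hgi, Matrix.mul_one, hB]
  refine ⟨_, _, hG, ?_⟩
  rintro Y ⟨σ, hσ, c, -, e⟩ hY hY0
  obtain ⟨m, hm, -, ⟨_, ⟨l, hl, rfl⟩, hl'⟩, -⟩ :=
    Subgroup.exists_pow_mem_of_relIndex_ne_zero hg.1 hσ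
  set N : M3 := (g⁻¹).1 * F * Y.map φ * (F' * g.1) with hN
  have hNN : N * N = 0 := by
    calc N * N = (g⁻¹).1 * F * (Y.map φ * (F' * (g.1 * (g⁻¹).1) * F) * Y.map φ) * (F' * g.1) := by
          simp only [hN, Matrix.mul_assoc]
      _ = 0 := by rw [hgi', Matrix.mul_one, hF', Matrix.mul_one, ← Matrix.map_mul, hY]; simp
  have h1 : (g⁻¹ * σ * g).1 = c • (1 + N) := by
    have hm1 : (1 + Y).map φ = 1 + Y.map φ := by
      rw [Matrix.map_add _ (map_add φ)]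
      simp
    calc (g⁻¹ * σ * g).1 = (g⁻¹).1 * (σ.1 * F) * (F' * g.1) := by
          rw [Matrix.mul_assoc, Matrix.mul_assoc, ← Matrix.mul_assoc F, hF, Matrix.one_mul,
            ← Matrix.mul_assoc]
          rfl
      _ = c • ((g⁻¹).1 * (F * F') * g.1 + N) := by
          rw [e, hm1, hN]
          simp only [Matrix.mul_smul, Matrix.smul_mul, mul_add, add_mul, Matrix.mul_assoc,
            Matrix.one_mul, smul_add]
      _ = _ := by rw [hF, Matrix.mul_one, hgi]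
  have h2 : l.1 = (g⁻¹ * σ * g) ^ m := by
    have : g * l.1 * g⁻¹ = σ ^ m := hl'
    have h3 := conj_pow (i := m) (a := g⁻¹) (b := σ)
    rw [inv_inv] at h3
    rw [h3, ← this]
    group
  have h3 : l.1.1 = c ^ m • (1 + (m : ℂ) • N) := by
    rw [h2, Matrix.SpecialLinearGroup.coe_pow, h1, smul_pow, unip_pow hNN]
  obtain ⟨γ, hγ, i, k, hk⟩ := hc l hl _ _ h3 (by rw [smul_mul_smul_comm, hNN, smul_zero])
  obtain ⟨a, a', ha, e1, e2⟩ := lamU hw hs γ hγ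
  have hm0 : (m : ℂ) ≠ 0 := by exact_mod_cast hm.ne'
  have h4 : tc Bz * N = ((k : ℂ) / m) • ((a * toM w0 s0 (nz i) * a').map φ * tc Bz) := by
    refine smul_right_injective _ hm0 ?_
    simp only
    rw [← Matrix.mul_smul, hk, Matrix.mul_smul, ← Matrix.mul_assoc, ← Matrix.mul_assoc, e1,
      Matrix.mul_assoc (a.map φ), lamN, Matrix.mul_smul, Matrix.smul_mul, Matrix.mul_assoc,
      Matrix.mul_assoc, e2, smul_smul, smul_smul, Matrix.map_mul, Matrix.map_mul, map_tc hw hs]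
    simp only [Matrix.mul_assoc]
    congr 1
    field_simp
  have h5 : tc Bz * (g⁻¹).1 * F * Y.map φ = ((((k : ℚ) / m : ℚ) : K0) •
      (a * toM w0 s0 (nz i) * a')).map φ * (tc Bz * (g⁻¹).1 * F) := by
    have hsm : ∀ (q : ℚ) (X : Mx K0), ((q : K0) • X).map φ = (q : ℂ) • X.map φ := by
      intro q X
      ext s t
      simp
    rw [hsm]
    push_cast
    rw [← Matrix.mul_assoc, ← Matrix.mul_assoc, Matrix.smul_mul, ← h4, hN]
    calc _ = tc Bz * (g⁻¹).1 * F * Y.map φ * (F' * (g.1 * (g⁻¹).1) * F) := by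
          rw [hgi', Matrix.mul_one, hF', Matrix.mul_one]
      _ = _ := by simp only [Matrix.mul_assoc]
  refine ⟨_, DV.Par.smul (fun h0 => hY0 ?_) ((par_nz i).conj ha), h5⟩
  rw [h0, zero_smul] at h5
  have h6 := congrArg (fun X => F' * g.1 * (tc Bz)⁻¹ * X) h5
  rw [← Matrix.mul_assoc, mul_eq_one_comm.1 hG, Matrix.one_mul] at h6
  refine Matrix.map_injective φ.injective ?_
  simpa using h6

theorem exp_cube (p : ℕ) (hp : p ≠ 0) :
    Complex.exp (2 * Real.pi * Complex.I / (3 * p)) ^ 3 =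
      ⟨Real.cos (2 * Real.pi / p), Real.sin (2 * Real.pi / p)⟩ := by
  have : (p : ℂ) ≠ 0 := by exact_mod_cast hp
  rw [← Complex.exp_nat_mul, show ((3 : ℕ) : ℂ) * (2 * Real.pi * Complex.I / (3 * p)) =
    ((2 * Real.pi / p : ℝ) : ℂ) * Complex.I by push_cast; field_simp]
  apply Complex.ext
  · exact Complex.exp_ofReal_mul_I_re _
  · exact Complex.exp_ofReal_mul_I_im _

theorem cube3 : Complex.exp (2 * Real.pi * Complex.I / (3 * (3 : ℕ))) ^ 3 = om := by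
  rw [exp_cube 3 (by norm_num), show 2 * Real.pi / (3 : ℕ) = Real.pi - Real.pi / 3 by push_cast; ring,
    Real.cos_pi_sub, Real.sin_pi_sub, Real.cos_pi_div_three, Real.sin_pi_div_three]
  apply Complex.ext <;> simp [om]
  ring

theorem cube6 : Complex.exp (2 * Real.pi * Complex.I / (3 * (6 : ℕ))) ^ 3 = 1 + om := by
  rw [exp_cube 6 (by norm_num), show 2 * Real.pi / (6 : ℕ) = Real.pi / 3 by push_cast; ring,
    Real.cos_pi_div_three, Real.sin_pi_div_three]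
  apply Complex.ext <;> simp [om]
  ring

theorem spor_gen (p : ℕ) : ∃ u : ℂ, u = Complex.exp (2 * Real.pi * Complex.I / (3 * p)) ∧ u ≠ 0 ∧
    (∃ σ ∈ Spor p, σ.1 = !![u ^ 2, -1 + sr, -u * (-1 - sr); 0, u⁻¹, 0; 0, 0, u⁻¹]) ∧
    ∃ σ ∈ Spor p, σ.1 = !![0, 0, 1; 1, 0, 0; 0, 1, 0] := by
  refine ⟨_, rfl, Complex.exp_ne_zero _, ⟨⟨_, ?_⟩, Subgroup.subset_closure ⟨_, rfl, Or.inl rfl⟩, rfl⟩,
    ⟨_, ?_⟩, Subgroup.subset_closure ⟨_, rfl, Or.inr rfl⟩, rfl⟩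
  · have := Complex.exp_ne_zero (2 * Real.pi * Complex.I / (3 * p))
    rw [Matrix.det_fin_three]
    simp
    field_simp
  · rw [Matrix.det_fin_three]
    simp

theorem gens_mem (hw : φ w0 = om) (hs : φ s0 = sr) (S : Subgroup SL3) (F : M3) (G : ℕ → M9)
    (h0 : toM w0 s0 (G 0) ∈ rep φ S F) (h2 : toM w0 s0 (G 2) ∈ rep φ S F)
    (h1 : ((G 0).mul (G 1)).eqB one = true) (h3 : ((G 2).mul (G 3)).eqB one = true)
    (h4 : ∀ n, G (n + 4) = sc ⟨1, 1, 0, 0⟩) (l : ℕ) : toM w0 s0 (G l) ∈ rep φ S F :=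
  match l with
  | 0 => h0
  | 1 => rep_inv S F _ h0 _ (by rw [← toM_mul emb0.hw emb0.hs, toM_eqB h1, toM_one])
  | 2 => h2
  | 3 => rep_inv S F _ h2 _ (by rw [← toM_mul emb0.hw emb0.hs, toM_eqB h3, toM_one])
  | n + 4 => by rw [h4]; exact rep_sc S F hw hs

theorem tc_eq (X : M9) : tc X = !![X.a.ev om sr, X.b.ev om sr, X.c.ev om sr;
    X.d.ev om sr, X.e.ev om sr, X.f.ev om sr; X.g.ev om sr, X.h.ev om sr, X.i.ev om sr] := by
  ext i j
  fin_cases i <;> fin_cases j <;> rfl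

theorem fr30 {u : ℂ} (h0 : u ≠ 0) (h : u ^ 3 = om) :
    !![u ^ 2, -1 + sr, -u * (-1 - sr); 0, u⁻¹, 0; 0, 0, u⁻¹] * !![u ^ 2, 0, 0; 0, u, 0; 0, 0, 1] =
      u⁻¹ • (!![u ^ 2, 0, 0; 0, u, 0; 0, 0, 1] * tc (g3 0)) := by
  rw [tc_eq]
  ext i j
  fin_cases i <;> fin_cases j <;>
    simp [g3, Z4.ev, Matrix.mul_apply, Fin.sum_univ_three] <;> field_simp <;> grind

theorem fr32 {u : ℂ} (h : u ^ 3 = om) :
    !![0, 0, 1; 1, 0, 0; 0, 1, 0] * !![u ^ 2, 0, 0; 0, u, 0; 0, 0, 1] =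
      u • (!![u ^ 2, 0, 0; 0, u, 0; 0, 0, 1] * tc (g3 2)) := by
  have ho := om_sq
  rw [tc_eq]
  ext i j
  fin_cases i <;> fin_cases j <;>
    simp [g3, Z4.ev, Matrix.mul_apply, Fin.sum_univ_three] <;> grind

theorem fr60 {u : ℂ} (h0 : u ≠ 0) (h : u ^ 3 = 1 + om) :
    !![u ^ 2, -1 + sr, -u * (-1 - sr); 0, u⁻¹, 0; 0, 0, u⁻¹] * !![u ^ 2, 0, 0; -u, u, 0; 1, 0, 1] =
      u⁻¹ • (!![u ^ 2, 0, 0; -u, u, 0; 1, 0, 1] * tc (g6 0)) := by
  rw [tc_eq]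
  ext i j
  fin_cases i <;> fin_cases j <;>
    simp [g6, Z4.ev, Matrix.mul_apply, Fin.sum_univ_three] <;> field_simp <;> grind

theorem fr62 {u : ℂ} (h : u ^ 3 = 1 + om) :
    !![0, 0, 1; 1, 0, 0; 0, 1, 0] * !![u ^ 2, 0, 0; -u, u, 0; 1, 0, 1] =
      u • (!![u ^ 2, 0, 0; -u, u, 0; 1, 0, 1] * tc (g6 2)) := by
  have ho := om_sq
  rw [tc_eq]
  ext i j
  fin_cases i <;> fin_cases j <;>
    simp [g6, Z4.ev, Matrix.mul_apply, Fin.sum_univ_three] <;> grind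

theorem rowSep : SSep := by
  intro hc p hp g hg
  obtain ⟨φ, hw, hs⟩ := exists_phi om sr om_sq sr_sq
  obtain ⟨u, hu, hu0, ⟨σ, hσ, e1⟩, τ, hτ, e2⟩ := spor_gen p
  rcases hp with rfl | rfl
  · have h3 : u ^ 3 = om := hu ▸ cube3
    let F : M3 := !![u ^ 2, 0, 0; 0, u, 0; 0, 0, 1]
    obtain ⟨G, G', hG, H⟩ := bridge hw hs hc _ g hg F F⁻¹ (Matrix.mul_nonsing_inv _ (by
      simp [F, Matrix.det_fin_three, hu0]))
    refine sep3 emb0 (rep φ (Spor 3) F) (gens_mem hw hs _ F g3 ⟨σ, hσ, u⁻¹, inv_ne_zero hu0, ?_⟩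
      ⟨τ, hτ, u, hu0, ?_⟩ (by decide +kernel) (by decide +kernel) fun _ => rfl)
      (rep_inv _ F) φ G G' hG H
    · rw [e1, map_tc hw hs]
      exact fr30 hu0 h3
    · rw [e2, map_tc hw hs]
      exact fr32 h3
  · have h3 : u ^ 3 = 1 + om := hu ▸ cube6
    let F : M3 := !![u ^ 2, 0, 0; -u, u, 0; 1, 0, 1]
    obtain ⟨G, G', hG, H⟩ := bridge hw hs hc _ g hg F F⁻¹ (Matrix.mul_nonsing_inv _ (by
      simp [F, Matrix.det_fin_three, hu0]))
    refine sep6 emb0 (rep φ (Spor 6) F) (gens_mem hw hs _ F g6 ⟨σ, hσ, u⁻¹, inv_ne_zero hu0, ?_⟩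
      ⟨τ, hτ, u, hu0, ?_⟩ (by decide +kernel) (by decide +kernel) fun _ => rfl)
      (rep_inv _ F) φ G G' hG H
    · rw [e1, map_tc hw hs]
      exact fr60 hu0 h3
    · rw [e2, map_tc hw hs]
      exact fr62 h3

end Pool.Agent.MP_d97ab6_al.H76
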